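import Pool.Agent.Helper64.BKA.Defs

/-!
# Artin formalism for Selmer groups and `L`-functions: exact statements of the modules
Proofs: /team-store/bka_blueprint.md
-/

set_option autoImplicit false

open NumberField
open scoped Classical

namespace BKA

/-- `f (H, χ)` is an additive function of the character of `G` induced by `χ`. -/
def IsArt {G R : Type} [Group G] [Fintype G] [Field R]
    (f : (H : Subgroup G) → (H →* Rˣ) → ℤ) : Prop :=
  ∀ (r : ℕ) (H : Fin r → Subgroup G) (χ : ∀ i, H i →* Rˣ) (n : Fin r → ℤ),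
    (∀ g : G, ∑ i, (n i : R) * ind (H i) (χ i) g = 0) → ∑ i, n i * f (H i) (χ i) = 0

/-! ## A. Finite groups -/

/-- FRO: Frobenius reciprocity in the form which is needed. -/
def ST_FRO : Prop :=
  ∀ (G R : Type) [Group G] [Fintype G] [Field R] [CharZero R] (H : Subgroup G) (χ : H →* Rˣ)
    (θ : G → R), (∀ x g : G, θ (x⁻¹ * g * x) = θ g) →
    (Nat.card G : R)⁻¹ * ∑ g : G, ind H χ g * θ g =
      (Nat.card H : R)⁻¹ * ∑ g : G, ext H χ g * θ g

/-- EXT: induction from `H` to an intermediate group `K`, in which `H` is normal with abelian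
quotient, of the restriction of a character `ψ` of `K`: it is the sum of the characters `ψ η`, `η` a
character of `K ⧸ H`. -/
def ST_EXT : Prop :=
  ∀ (G R : Type) [Group G] [Fintype G] [Field R] [CharZero R]
    [HasEnoughRootsOfUnity R (Monoid.exponent G)] (H K : Subgroup G) (hHK : H ≤ K)
    (ψ : K →* Rˣ), (H.subgroupOf K).Normal → (∀ a ∈ K, ∀ b ∈ K, a * b * a⁻¹ * b⁻¹ ∈ H) →
    ∃ (r : ℕ) (η : Fin r → (K →* Rˣ)), Function.Injective η ∧
      (∀ χ : K →* Rˣ, (∀ h : K, (h : G) ∈ H → χ h = 1) ↔ χ ∈ Set.range η) ∧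
      ∀ g : G, ind H (ψ.comp (Subgroup.inclusion hHK)) g = ∑ i, ind K (ψ * η i) g

/-- CNJ: conjugation. -/
def ST_CNJ : Prop :=
  ∀ (G R : Type) [Group G] [Fintype G] [Field R] (H K : Subgroup G) (χ : H →* Rˣ)
    (ψ : K →* Rˣ) (t : G), (∀ y : G, ext K ψ (t * y * t⁻¹) = ext H χ y) →
    ∀ g : G, ind K ψ g = ind H χ g

/-- PAR: parity in extensions with a normal `2`-complement (from EXT, CNJ). -/
def ST_PAR : Prop :=
  ∀ (G R : Type) [Group G] [Fintype G] [Field R] [CharZero R]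
    [HasEnoughRootsOfUnity R (Monoid.exponent G)] (A : Subgroup G) [A.Normal],
    Odd (Nat.card A) → Group.IsSolvable A → (∃ n : ℕ, Nat.card (G ⧸ A) = 2 ^ n) →
    ∀ f : (H : Subgroup G) → (H →* Rˣ) → ℤ, IsArt f → (∀ H χ, f H χ⁻¹ = f H χ) →
      (∀ χ : (⊤ : Subgroup G) →* Rˣ, χ ^ 2 = 1 → Even (f ⊤ χ)) → Even (f ⊥ 1)

/-- CYC: Artin induction. -/
def ST_CYC : Prop :=
  ∀ (G R : Type) [Group G] [Fintype G] [Field R] [CharZero R]
    (f : (H : Subgroup G) → (H →* Rˣ) → ℤ), IsArt f →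
    (∀ C : Subgroup G, IsCyclic C → f C 1 = 0) → ∀ H : Subgroup G, f H 1 = 0

/-! ## B. Euler products -/

/-- EUL: the logarithm of the Euler factor. -/
def ST_EUL : Prop :=
  ∀ (G : Type) [Group G] [Fintype G] (H : Subgroup G) (χ : H →* ℂˣ) (g : G) (Y : ℂ), ‖Y‖ < 1 →
    ∃ l : ℂ, HasSum (fun n : ℕ => ind H χ (g ^ (n + 1)) * Y ^ (n + 1) / ((n : ℂ) + 1)) l ∧
      (euler H χ g Y)⁻¹ = Complex.exp l

/-- BND: bound for the induced character. -/
def ST_BND : Prop :=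
  ∀ (G : Type) [Group G] [Fintype G] (H : Subgroup G) (χ : H →* ℂˣ) (g : G),
    ‖ind H χ g‖ ≤ Nat.card G

/-- REL: relations between induced characters and `L`-functions (from EUL, BND). -/
def ST_REL : Prop :=
  ∀ (G : Type) [Group G] [Fintype G] (I : Type) (q : I → ℕ) (g : I → G) (d : ℕ)
    (α : I → Fin d → ℂ) (w : ℝ) (r : ℕ) (H : Fin r → Subgroup G) (χ : ∀ i, H i →* ℂˣ)
    (n : Fin r → ℤ) (Λ : Fin r → ℂ → ℂ),
    (∀ v, 2 ≤ q v) → (∀ σ : ℝ, 1 < σ → Summable fun v => (q v : ℝ) ^ (-σ)) →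
    (∀ v j, ‖α v j‖ ≤ (q v : ℝ) ^ (w / 2)) → (∀ i, MeromorphicOn (Λ i) Set.univ) →
    (∀ i (s : ℂ), w / 2 + 1 < s.re → Λ i s = LL q g α (H i) (χ i) s) →
    (∀ x : G, ∑ i, (n i : ℂ) * ind (H i) (χ i) x = 0) →
    (∀ i s, meromorphicOrderAt (Λ i) s ≠ ⊤) ∧
    (∀ s, ∑ i, n i * (meromorphicOrderAt (Λ i) s).untop₀ = 0) ∧
    ∀ s, (∀ i, AnalyticAt ℂ (Λ i) s ∧ Λ i s ≠ 0) → ∏ i, (Λ i s) ^ (n i) = 1

/-- SUM: summability over the places of a number field. -/
def ST_SUM : Prop :=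
  ∀ (F : Type) [Field F] [NumberField F], (∀ v : Pl F, 2 ≤ q v) ∧
    ∀ σ : ℝ, 1 < σ → Summable fun v : Pl F => (q v : ℝ) ^ (-σ)

/-! ## C. Selmer groups -/

section

variable {k Γ : Type} [Field k] [TopologicalSpace k] [Group Γ] [TopologicalSpace Γ] {d : ℕ}

/-- SRES: restriction to an open normal subgroup identifies the Selmer group over `U` with a
subspace of the Selmer group over `N ≤ U`. -/
def ST_SRES : Prop :=
  ∀ (k Γ : Type) [Field k] [CharZero k] [TopologicalSpace k] [IsTopologicalRing k] [Group Γ]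
    [TopologicalSpace Γ] [IsTopologicalGroup Γ] (d : ℕ)
    (ρ : Γ →* Matrix.GeneralLinearGroup (Fin d) k) (C : Local ρ) (N U : Subgroup Γ) [N.Normal]
    [Finite (Γ ⧸ N)] (hNU : N ≤ U) (χ : U →* kˣ), Continuous ρ → IsOpen (N : Set Γ) →
    (∀ n : U, (n : Γ) ∈ N → χ n = 1) →
    -- restriction of Selmer cocycles, and injectivity
    (∀ c : U → Fin d → k, IsSel ρ C U χ c →
      IsSel ρ C N 1 (fun n => c ⟨n, hNU n.2⟩) ∧
      (IsCob ρ N 1 (fun n => c ⟨n, hNU n.2⟩) → IsCob ρ U χ c) ∧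
      ∀ u : U, IsCob ρ N 1 (fun n => vec ρ u (c ⟨(u : Γ)⁻¹ * n * u,
        U.mul_mem (U.mul_mem (U.inv_mem u.2) (hNU n.2)) u.2⟩) -
          ((χ u : kˣ) : k)⁻¹ • c ⟨n, hNU n.2⟩)) ∧
    -- surjectivity onto the eigenspace
    ∀ c : N → Fin d → k, IsSel ρ C N 1 c →
      (∀ u : U, IsCob ρ N 1 (fun n => vec ρ u (c ⟨(u : Γ)⁻¹ * n * u, by
        have := ‹N.Normal›.conj_mem n n.2 (u : Γ)⁻¹
        simpa using this⟩) - ((χ u : kˣ) : k)⁻¹ • c n)) →
      ∃ c' : U → Fin d → k, IsSel ρ C U χ c' ∧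
        IsCob ρ N 1 (fun n => c' ⟨n, hNU n.2⟩ - c n)

/-- SEL: the dimensions of the Selmer groups are additive (from SRES, FRO). -/
def ST_SEL : Prop :=
  ∀ (k Γ : Type) [Field k] [CharZero k] [TopologicalSpace k] [IsTopologicalRing k] [Group Γ]
    [TopologicalSpace Γ] [IsTopologicalGroup Γ] (d : ℕ)
    (ρ : Γ →* Matrix.GeneralLinearGroup (Fin d) k) (C : Local ρ) (N : Subgroup Γ) [N.Normal]
    [Fintype (Γ ⧸ N)], Continuous ρ → IsOpen (N : Set Γ) →
    ∀ (s₀ : ℕ), SelDimG ρ C N ⊥ 1 s₀ →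
    ∀ (r : ℕ) (H : Fin r → Subgroup (Γ ⧸ N)) (χ : ∀ i, H i →* kˣ) (n : Fin r → ℤ)
      (s : Fin r → ℕ), (∀ i, SelDimG ρ C N (H i) (χ i) (s i)) →
      (∀ g : Γ ⧸ N, ∑ i, (n i : k) * ind (H i) (χ i) g = 0) → ∑ i, n i * (s i : ℤ) = 0

end

/-! ## D. Local representations -/

/-- LOC: over the fixed field of a cyclic group the local representations are reducible, if the
representation is unipotent on the inertia groups over the big field. -/
def ST_LOC : Prop :=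
  ∀ (F : Type) [Field F] [NumberField F] (N : Subgroup (Gal F)) [N.Normal]
    (C : Subgroup (Gal F ⧸ N)), IsCyclic C →
    ∀ (K : Type) [Field K] [CharZero K] [IsAlgClosed K]
      (r : Gal F →* Matrix.GeneralLinearGroup (Fin 2) K) (v : Pl F) (𝔓 : Ideal (Zb F)),
      Over v 𝔓 → (∀ σ ∈ N, Congr 𝔓 1 σ →
        (((r σ : Matrix.GeneralLinearGroup (Fin 2) K) : Matrix (Fin 2) (Fin 2) K) - 1) ^ 2 = 0) →
      ∃ e : Fin 2 → K, e ≠ 0 ∧ ∀ σ : Gal F, (QuotientGroup.mk σ : Gal F ⧸ N) ∈ C →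
        (∀ x y : Zb F, (y : AlgebraicClosure F) = σ (x : AlgebraicClosure F) →
          (x ∈ 𝔓 ↔ y ∈ 𝔓)) →
        ∃ a : K, ((r σ : Matrix.GeneralLinearGroup (Fin 2) K) : Matrix (Fin 2) (Fin 2) K).mulVec e
          = a • e

/-! ## E. The factor in the conjecture on successive critical values -/

/-- `D` is totally negative and a square in `K`. -/
def IsCMElt (K : Type) [Field K] [NumberField K] (D : maximalRealSubfield K) : Prop :=
  (∀ φ : K →+* ℂ, (φ D).re < 0) ∧ IsSquare (D : K)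

/-- The number `Δ_K`: if `K` has a CM subfield, then its maximal CM subfield is `K₀(√D)` with `K₀`
the maximal totally real subfield and `D` totally negative, and `Δ_K` is a power of a square root of
the norm of `D`, with exponent `[K : K₀(√D)] = [K : K₀] / 2`. Otherwise `Δ_K = 1`. -/
def IsDelta (K : Type) [Field K] [NumberField K] (δ : ℂ) : Prop :=
  (∃ D : maximalRealSubfield K, IsCMElt K D ∧
    ∃ y : ℂ, y ^ 2 = ((Algebra.norm ℚ D : ℚ) : ℂ) ∧
      δ = y ^ (Module.finrank (maximalRealSubfield K) K / 2)) ∨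
  ((¬ ∃ D : maximalRealSubfield K, IsCMElt K D) ∧ δ = 1)

/-- DEL: comparison of `Δ_K` and `Δ_F`. -/
def ST_DEL : Prop :=
  ∀ (F K : Type) [Field F] [NumberField F] [Field K] [NumberField K] [Algebra F K] (δ δ' : ℂ)
    (n : ℕ), IsTotallyComplex F → IsDelta F δ → IsDelta K δ' →
    (Even n ∨ ∃ D : maximalRealSubfield F, IsCMElt F D) →
    ∃ a : ℚ, a ≠ 0 ∧ δ' ^ n = (a : ℂ) * (δ ^ n) ^ (Module.finrank F K)

/-- DSC: descent of the coefficient field. -/
def ST_DSC : Prop :=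
  ∀ (E E' : Type) [Field E] [NumberField E] [Field E'] [NumberField E'] [Algebra E E'] (e : E')
    (x : (E →+* ℂ) → ℂ), (∀ ι : E' →+* ℂ, ι e = x (ι.comp (algebraMap E E'))) →
    ∃ e₀ : E, algebraMap E E' e₀ = e

end BKA
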