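import Pool.Agent.Helper64.BKA.Stmts

/-!
# Artin formalism, third part: complex conjugation of `L`-functions with real coefficients
-/

set_option autoImplicit false

open scoped Classical ComplexConjugate

namespace BKA

/-- CJG: complex conjugation of the Euler product of a representation with real traces. -/
def ST_CJG : Prop :=
  ∀ (G : Type) [Group G] [Fintype G] (I : Type) (q : I → ℕ) (g : I → G) (α : I → Fin 2 → ℂ)
    (H : Subgroup G) (χ : H →* ℂˣ) (s : ℂ), (∀ v, (α v 0 + α v 1).im = 0) →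
    (∀ v, (α v 0 * α v 1).im = 0) →
    LL q g α H χ⁻¹ s = conj (LL q g α H χ (conj s))

/-- CJM: complex conjugation of a meromorphic function. -/
def ST_CJM : Prop :=
  ∀ Λ : ℂ → ℂ, MeromorphicOn Λ Set.univ →
    MeromorphicOn (fun s => conj (Λ (conj s))) Set.univ ∧
    ∀ s, meromorphicOrderAt (fun s => conj (Λ (conj s))) s = meromorphicOrderAt Λ (conj s)

/-- HP: relations in the half plane of convergence (first half of REL2). -/
def ST_HP : Prop :=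
  ∀ (G : Type) [Group G] [Fintype G] (I : Type) (q : I → ℕ) (g : I → G) (d : ℕ)
    (α : I → Fin d → ℂ) (w : ℝ) (r : ℕ) (θ : Fin r → G → ℂ) (ε : Fin r → G → ℂ → ℂ)
    (n : Fin r → ℤ),
    (∀ i x Y, ‖Y‖ < 1 → ∃ l : ℂ,
      HasSum (fun m : ℕ => θ i (x ^ (m + 1)) * Y ^ (m + 1) / ((m : ℂ) + 1)) l ∧
        (ε i x Y)⁻¹ = Complex.exp l) →
    (∀ v, 2 ≤ q v) → (∀ σ : ℝ, 1 < σ → Summable fun v => (q v : ℝ) ^ (-σ)) →
    (∀ v j, ‖α v j‖ ≤ (q v : ℝ) ^ (w / 2)) → (∀ x : G, ∑ i, (n i : ℂ) * θ i x = 0) →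
    ∀ s : ℂ, w / 2 + 1 < s.re →
      (∀ i, ∏' v, ∏ j : Fin d, (ε i (g v) (α v j * (q v : ℂ) ^ (-s)))⁻¹ ≠ 0) ∧
      ∏ i, (∏' v, ∏ j : Fin d, (ε i (g v) (α v j * (q v : ℂ) ^ (-s)))⁻¹) ^ (n i) = 1

/-- CON: multiplicative relations between meromorphic functions are preserved by continuation
(second half of REL2). -/
def ST_CON : Prop :=
  ∀ (r : ℕ) (n : Fin r → ℤ) (Λ : Fin r → ℂ → ℂ) (σ₀ : ℝ),
    (∀ i, MeromorphicOn (Λ i) Set.univ) →
    (∀ s : ℂ, σ₀ < s.re → (∀ i, Λ i s ≠ 0) ∧ ∏ i, (Λ i s) ^ (n i) = 1) →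
    (∀ i s, meromorphicOrderAt (Λ i) s ≠ ⊤) ∧
    (∀ s, ∑ i, n i * (meromorphicOrderAt (Λ i) s).untop₀ = 0) ∧
    ∀ s, (∀ i, AnalyticAt ℂ (Λ i) s ∧ Λ i s ≠ 0) → ∏ i, (Λ i s) ^ (n i) = 1

end BKA
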