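import Pool.Agent.Helper64.BKA.Core

/-!
# The rank formula, including the finite dimension and the continuation
-/

set_option autoImplicit false

open NumberField

namespace BKA

variable {F E k : Type} [Field F] [NumberField F] [Field E] [Field k] [TopologicalSpace k]
  {V : Repr F E k}

/-- `L (V / K, s)` has a meromorphic continuation to `ℂ`. -/
def Ext.Cont (L : Ext V) (H : Subgroup L.G) : Prop :=
  ∃ Λ : ℂ → ℂ, MeromorphicOn Λ Set.univ ∧ ∀ s : ℂ, 1 < s.re → Λ s = L.LF H Ch.triv s

/-- The rank formula for `V` over `K = L^H`: the Selmer group has finite dimension `s`, the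
`L`-function has a meromorphic continuation and its order at `0` is `s`. -/
def Ext.RankF (L : Ext V) (C : Local V.ρ) (H : Subgroup L.G) : Prop :=
  ∃ s : ℕ, L.Sel C H Ch.triv s ∧ L.Ord H Ch.triv s

end BKA
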