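import Pool.Agent.Helper64.BKA.Art

/-!
# T2: reduction of the rank formula to intermediate fields with reducible local representations
-/

set_option autoImplicit false

open NumberField
open scoped Classical

namespace BKA

/-- the relation of Artin's theorem on induced characters -/
theorem cyc_rel {G : Type} [Group G] [Fintype G] (H : Subgroup G) :
    ∃ n : Subgroup G → ℤ,
      (∀ (R : Type) [Field R] [CharZero R] (x : G),
        ∑ B : Subgroup G, (n B : R) * ind B (1 : B →* Rˣ) x = 0) ∧
      ∀ f : Subgroup G → ℤ, (∀ C : Subgroup G, IsCyclic C → f C = 0) →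
        ∑ B : Subgroup G, n B * f B = 0 → f H = 0 := by
  obtain ⟨m, hm, h1⟩ := CYC82.rep_all H
  refine ⟨fun B => m B * (Nat.card B : ℤ) - (if B = H then (Nat.card H : ℤ) else 0), ?_, ?_⟩
  · intro R _ _ g
    have h3 : ∀ B : Subgroup G,
        (((m B * (Nat.card B : ℤ) - (if B = H then (Nat.card H : ℤ) else 0) : ℤ)) : R) *
          ind B (1 : B →* Rˣ) g = (∑ x : G, (m B : R) * if x⁻¹ * g * x ∈ B then (1 : R) else 0) -
            (if B = H then ∑ x : G, (if x⁻¹ * g * x ∈ H then (1 : R) else 0) else 0) := by
      intro B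
      rw [← Finset.mul_sum, ← CYC82.card_ind B g, ← CYC82.card_ind H g]
      by_cases hBH : B = H
      · subst hBH
        simp only [if_true]
        push_cast
        ring
      · simp only [hBH, if_false]
        push_cast
        ring
    simp only [h3, Finset.sum_sub_distrib, Finset.sum_ite_eq', Finset.mem_univ, if_true]
    rw [Finset.sum_comm, ← Finset.sum_sub_distrib]
    refine Finset.sum_eq_zero fun x _ => ?_
    have h4 := h1 (x⁻¹ * g * x)
    have h5 : ((if x⁻¹ * g * x ∈ H then (1 : ℤ) else 0 : ℤ) : R) =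
        ((∑ B : Subgroup G, m B * (if x⁻¹ * g * x ∈ B then 1 else 0) : ℤ) : R) := by
      rw [← h4]
    push_cast at h5
    rw [← h5]
    exact sub_self _
  · intro f hC h2
    have h3 : ∀ B : Subgroup G,
        (m B * (Nat.card B : ℤ) - (if B = H then (Nat.card H : ℤ) else 0)) * f B =
          - (if B = H then (Nat.card H : ℤ) * f H else 0) := by
      intro B
      by_cases hB : IsCyclic B
      · have h4 := hC B hB
        by_cases hBH : B = H
        · subst hBH
          simp [h4]
        · simp [h4, hBH]
      · have h4 := hm B hB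
        by_cases hBH : B = H
        · subst hBH
          simp [h4]
        · simp [h4, hBH]
    simp only [h3, Finset.sum_neg_distrib, Finset.sum_ite_eq', Finset.mem_univ, if_true] at h2
    have h5 : (Nat.card H : ℤ) ≠ 0 := by
      have : 0 < Nat.card H := Nat.card_pos
      exact_mod_cast this.ne'
    have h6 : (Nat.card H : ℤ) * f H = 0 := by linarith
    exact (mul_eq_zero.mp h6).resolve_left h5

/-- the index of a cyclic subgroup -/
theorem cyc_index {G : Type} [Group G] [Finite G] (n : ℕ)
    (φ : G →* Multiplicative (ZMod n × ZMod n)) (hφ : Function.Surjective φ) (C : Subgroup G)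
    (hC : IsCyclic C) : n ∣ C.index := by
  refine Dvd.dvd.trans ?_ (Subgroup.index_map_dvd C hφ)
  rcases Nat.eq_zero_or_pos n with rfl | hn
  · have : Finite (Multiplicative (ZMod 0 × ZMod 0)) := Finite.of_surjective φ hφ
    exfalso
    have : Finite (ZMod 0 × ZMod 0) := Finite.of_equiv _ (Multiplicative.toAdd)
    have : Finite (ZMod 0) := Finite.of_surjective (Prod.fst : ZMod 0 × ZMod 0 → ZMod 0)
      Prod.fst_surjective
    exact not_finite (ZMod 0)
  · have : NeZero n := ⟨hn.ne'⟩
    set C' := C.map φ with hC'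
    have hcyc : IsCyclic C' := by
      have : Function.Surjective (φ.subgroupMap C) := φ.subgroupMap_surjective C
      exact isCyclic_of_surjective (φ.subgroupMap C) this
    obtain ⟨x, hx⟩ := hcyc.exists_generator
    have h1 : Nat.card C' ∣ n := by
      rw [← orderOf_eq_card_of_forall_mem_zpowers hx]
      apply orderOf_dvd_of_pow_eq_one
      apply Subtype.ext
      show (x : Multiplicative (ZMod n × ZMod n)) ^ n = 1
      apply Multiplicative.toAdd.injective
      rw [toAdd_pow, toAdd_one]
      ext
      · simp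
      · simp
    have h2 : Nat.card C' * C'.index = n * n := by
      rw [Subgroup.card_mul_index]
      simp [Nat.card_prod]
    obtain ⟨c, hc⟩ := h1
    have hpos : 0 < Nat.card C' := Nat.card_pos
    refine ⟨c, ?_⟩
    have h3 : Nat.card C' * C'.index = Nat.card C' * (n * c) := by
      rw [h2]
      nth_rewrite 1 [hc]
      ring
    exact Nat.eq_of_mul_eq_mul_left hpos h3

theorem t2 (F E k : Type) [Field F] [NumberField F] [Field E] [Field k] [CharZero k]
    [TopologicalSpace k] [IsTopologicalRing k] (V : Repr F E k) (C : Local V.ρ) (L : Ext V)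
    (hs : ∀ H, ∃ s, L.Sel C H Ch.triv s) (ha : ∀ H, ∃ a, L.Ord H Ch.triv a)
    (n : ℕ) (φ : L.G →* Multiplicative (ZMod n × ZMod n)) (hφ : Function.Surjective φ)
    (T : Set (Aux F)) (hT : ∀ R ∈ T, R.Unip L.N)
    (hBK : ∀ H : Subgroup L.G, IsCyclic H → n ∣ H.index → (∀ R ∈ T, R.Red (L.gal H)) → L.Rank C H)
    (H : Subgroup L.G) : L.Rank C H := by
  have : CharZero E := V.ι.charZero
  have := L.normal
  choose s hs using hs
  choose a ha using ha
  obtain ⟨m, hm, hf⟩ := cyc_rel H
  have h1 : (fun H => (s H : ℤ) - a H) H = 0 := by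
    apply hf
    · intro D hD
      have h2 := hBK D hD (cyc_index n φ hφ D hD) (fun R hR v hv 𝔓 h𝔓 =>
        st_LOC F L.N D hD R.K R.r v 𝔓 h𝔓 (hT R hR v hv 𝔓 h𝔓)) _ _ (hs D) (ha D)
      show (s D : ℤ) - a D = 0
      omega
    · have h3 := art C L (s ⊥) (hs ⊥)
        (fun i : Fin (Fintype.card (Subgroup L.G)) => (Fintype.equivFin (Subgroup L.G)).symm i)
        (fun _ => Ch.triv)
        (fun i => m ((Fintype.equivFin (Subgroup L.G)).symm i))
        (fun i => s ((Fintype.equivFin (Subgroup L.G)).symm i))
        (fun i => a ((Fintype.equivFin (Subgroup L.G)).symm i))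
        (fun i => hs _) (fun i => ha _) (fun x => by
          have h4 := Equiv.sum_comp (Fintype.equivFin (Subgroup L.G)).symm
            (fun B : Subgroup L.G => (m B : E) * ind B (1 : B →* Eˣ) x)
          refine Eq.trans h4 ?_
          exact hm E x)
      rw [Equiv.sum_comp (Fintype.equivFin (Subgroup L.G)).symm
        (fun B : Subgroup L.G => m B * ((s B : ℤ) - a B))] at h3
      exact h3
  have h2 : (s H : ℤ) - a H = 0 := h1
  intro s' a' hs' ha'
  rw [sel_unique C L (s ⊥) (hs ⊥) H Ch.triv _ _ hs' (hs H),
    ord_unique L H Ch.triv _ _ ha' (ha H)]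
  omega

end BKA
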