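import Pool.Agent.Helper64.BKA.EXS
import Pool.Agent.Helper64.BKA.CoreS
import Pool.Agent.Helper64.BKA.T2

/-!
# T2, strong form: finite dimension and continuation are not assumed for the other fields
-/

set_option autoImplicit false

open NumberField
open scoped Classical

namespace BKA

/-- the relation of Artin's theorem on induced characters -/
theorem cyc_rel2 {G : Type} [Group G] [Fintype G] (H : Subgroup G) :
    ∃ n : {B : Subgroup G // IsCyclic B} → ℤ,
      ∀ (R : Type) [Field R] [CharZero R] (x : G),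
        (Nat.card H : R) * ind H (1 : H →* Rˣ) x =
          ∑ B : {B : Subgroup G // IsCyclic B}, (n B : R) * ind B.1 (1 : B.1 →* Rˣ) x := by
  obtain ⟨m, hm, h1⟩ := CYC82.rep_all H
  refine ⟨fun B => m B.1 * (Nat.card B.1 : ℤ), ?_⟩
  intro R _ _ g
  have h2 : ∑ B : {B : Subgroup G // IsCyclic B},
      ((m B.1 * (Nat.card B.1 : ℤ) : ℤ) : R) * ind B.1 (1 : B.1 →* Rˣ) g =
      ∑ B : Subgroup G, ((m B * (Nat.card B : ℤ) : ℤ) : R) * ind B (1 : B →* Rˣ) g := by
    refine Fintype.sum_of_injective Subtype.val Subtype.val_injective _ _ ?_ fun _ => rfl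
    intro B hB
    have h3 : ¬ IsCyclic B := fun h => hB ⟨⟨B, h⟩, rfl⟩
    rw [hm B h3]
    simp
  rw [h2]
  have h3 : ∀ B : Subgroup G, ((m B * (Nat.card B : ℤ) : ℤ) : R) * ind B (1 : B →* Rˣ) g =
      ∑ x : G, (m B : R) * if x⁻¹ * g * x ∈ B then (1 : R) else 0 := by
    intro B
    rw [← Finset.mul_sum, ← CYC82.card_ind B g]
    push_cast
    ring
  simp only [h3]
  rw [Finset.sum_comm, CYC82.card_ind H g]
  refine Finset.sum_congr rfl fun x _ => ?_
  have h4 := h1 (x⁻¹ * g * x)
  have h5 : ((if x⁻¹ * g * x ∈ H then (1 : ℤ) else 0 : ℤ) : R) =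
      ((∑ B : Subgroup G, m B * (if x⁻¹ * g * x ∈ B then 1 else 0) : ℤ) : R) := by
    rw [← h4]
  push_cast at h5
  exact h5

section

variable {F E k : Type} [Field F] [NumberField F] [Field E] [Field k]
    [TopologicalSpace k] {V : Repr F E k}

/-- The order of a continuation of the `L`-function is finite. -/
theorem ord_exists (L : Ext V) (H : Subgroup L.G) (h : L.Cont H) : ∃ a, L.Ord H Ch.triv a := by
  obtain ⟨Λ, hmer, hΛ⟩ := h
  have hq := (st_SUM F).1
  have hsum := (st_SUM F).2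
  have h2 := st_REL st_EUL st_BND L.G {v // v ∉ V.S} (fun v => q (v : Pl F))
    (fun v => L.g v) 2 (fun v => V.α v) 0 1 (fun _ => H)
    (fun _ => (Ch.triv : Ch E H).map V.ι) (fun _ => 0) (fun _ => Λ)
    (fun v => hq v) (fun σ hσ => (hsum σ hσ).subtype _)
    (fun v j => by
      rw [zero_div, Real.rpow_zero]
      exact V.bound v v.2 j)
    (fun _ => hmer)
    (fun i s hs => hΛ s (by
      rwa [zero_div, zero_add] at hs))
    (fun x => by simp)
  have h3 := h2.1 0 0
  obtain ⟨a, ha⟩ := WithTop.ne_top_iff_exists.1 h3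
  exact ⟨a, Λ, hmer, hΛ, ha.symm⟩

theorem t2s [CharZero k] [IsTopologicalRing k] (C : Local V.ρ) (L : Ext V)
    (hD : ∀ D : Subgroup L.G, IsCyclic D → L.RankF C D)
    (H : Subgroup L.G) (hH : L.Cont H) : L.RankF C H := by
  have : CharZero E := V.ι.charZero
  have := L.normal
  have hH' := ord_exists L H hH
  have hbot : IsCyclic (⊥ : Subgroup L.G) := inferInstance
  obtain ⟨s₀, hs₀, -⟩ := hD ⊥ hbot
  obtain ⟨a, ha⟩ := hH'
  obtain ⟨s, hs⟩ := sel_exists C L s₀ hs₀ H Ch.triv
  choose t ht1 ht2 using fun D : {B : Subgroup L.G // IsCyclic B} => hD D.1 D.2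
  obtain ⟨n, hn⟩ := cyc_rel2 H
  let e := Fintype.equivFin (Option {B : Subgroup L.G // IsCyclic B})
  let H' : Option {B : Subgroup L.G // IsCyclic B} → Subgroup L.G := fun o => o.elim H Subtype.val
  let n' : Option {B : Subgroup L.G // IsCyclic B} → ℤ := fun o => o.elim (-(Nat.card H : ℤ)) n
  let s' : Option {B : Subgroup L.G // IsCyclic B} → ℕ := fun o => o.elim s t
  let a' : Option {B : Subgroup L.G // IsCyclic B} → ℤ := fun o => o.elim a fun D => (t D : ℤ)
  have h1 := art C L s₀ hs₀ (fun i => H' (e.symm i)) (fun _ => Ch.triv) (fun i => n' (e.symm i))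
    (fun i => s' (e.symm i)) (fun i => a' (e.symm i))
    (fun i => by
      show L.Sel C (H' (e.symm i)) Ch.triv (s' (e.symm i))
      cases e.symm i with
      | none => exact hs
      | some D => exact ht1 D)
    (fun i => by
      show L.Ord (H' (e.symm i)) Ch.triv (a' (e.symm i))
      cases e.symm i with
      | none => exact ha
      | some D => exact ht2 D)
    (fun x => by
      have h4 := Equiv.sum_comp e.symm
        (fun o => (n' o : E) * ind (H' o) (1 : H' o →* Eˣ) x)
      refine Eq.trans h4 ?_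
      rw [Fintype.sum_option]
      have h5 := hn E x
      show ((-(Nat.card H : ℤ) : ℤ) : E) * ind H (1 : H →* Eˣ) x +
        ∑ B : {B : Subgroup L.G // IsCyclic B}, (n B : E) * ind B.1 (1 : B.1 →* Eˣ) x = 0
      rw [← h5]
      push_cast
      ring)
  rw [Equiv.sum_comp e.symm (fun o => n' o * ((s' o : ℤ) - a' o)), Fintype.sum_option] at h1
  have h2 : ∀ D : {B : Subgroup L.G // IsCyclic B},
      n' (some D) * ((s' (some D) : ℤ) - a' (some D)) = 0 := by
    intro D
    show n D * ((t D : ℤ) - (t D : ℤ)) = 0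
    rw [sub_self, mul_zero]
  rw [Finset.sum_eq_zero fun D _ => h2 D, add_zero] at h1
  have h3 : -(Nat.card H : ℤ) * ((s : ℤ) - a) = 0 := h1
  have h4 : -(Nat.card H : ℤ) ≠ 0 := by
    have : 0 < Nat.card H := Nat.card_pos
    omega
  have h5 : (s : ℤ) - a = 0 := (mul_eq_zero.1 h3).resolve_left h4
  have h6 : (s : ℤ) = a := by omega
  refine ⟨s, hs, ?_⟩
  rw [h6]
  exact ha

theorem t2f (F E k : Type) [Field F] [NumberField F] [Field E] [Field k] [CharZero k]
    [TopologicalSpace k] [IsTopologicalRing k] (V : Repr F E k) (C : Local V.ρ) (L : Ext V)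
    (n : ℕ) (φ : L.G →* Multiplicative (ZMod n × ZMod n)) (hφ : Function.Surjective φ)
    (T : Set (Aux F)) (hT : ∀ R ∈ T, R.Unip L.N)
    (hBK : ∀ H : Subgroup L.G, IsCyclic H → n ∣ H.index → (∀ R ∈ T, R.Red (L.gal H)) →
      L.RankF C H)
    (H : Subgroup L.G) (hH : L.Cont H) : L.RankF C H := by
  have := L.normal
  exact t2s C L (fun D hD => hBK D hD (cyc_index n φ hφ D hD) (fun R hR v hv 𝔓 h𝔓 =>
    st_LOC F L.N D hD R.K R.r v 𝔓 h𝔓 (hT R hR v hv 𝔓 h𝔓))) H hH

end

end BKA
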