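import Pool.Agent.Helper64.BKA.Conj

/-!
# T1: parity in extensions with a normal `2`-complement
-/

set_option autoImplicit false

open NumberField
open scoped Classical

namespace BKA

theorem t1 (hG : ST_CJG) (hM : ST_CJM)
    (F E k : Type) [Field F] [NumberField F] [Field E] [Field k] [CharZero k]
    [TopologicalSpace k] [IsTopologicalRing k] (V : Repr F E k) (C : Local V.ρ)
    (L : Ext V) [HasEnoughRootsOfUnity E (Monoid.exponent L.G)]
    (hs : ∀ H χ, ∃ s, L.Sel C H χ s) (ha : ∀ H χ, ∃ a, L.Ord H χ a)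
    (hd : ∀ H χ s, L.Sel C H χ s → L.Sel C H χ.inv s)
    (A : Subgroup L.G) [A.Normal] (hA : Odd (Nat.card A)) (hAs : Group.IsSolvable A)
    (h2 : ∃ n : ℕ, A.index = 2 ^ n)
    (hpar : ∀ χ : Ch E (⊤ : Subgroup L.G), χ.Quad → L.Par C ⊤ χ)
    (H : Subgroup L.G) (hH : Odd (Nat.card H)) : L.Par C H Ch.triv := by
  have : CharZero E := V.ι.charZero
  choose s₁ hs₁ using hs
  choose a₁ ha₁ using ha
  let s : (H : Subgroup L.G) → (H →* Eˣ) → ℕ := s₁
  let a : (H : Subgroup L.G) → (H →* Eˣ) → ℤ := a₁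
  have hs : ∀ (H : Subgroup L.G) (χ : H →* Eˣ), L.Sel C H χ (s H χ) := hs₁
  have ha : ∀ (H : Subgroup L.G) (χ : H →* Eˣ), L.Ord H χ (a H χ) := ha₁
  have hf : IsArt (fun (H : Subgroup L.G) (χ : H →* Eˣ) => ((s H χ : ℤ) - a H χ)) := by
    intro r H χ n hrel
    exact art C L (s ⊥ Ch.triv) (hs ⊥ Ch.triv) H χ n (fun i => s (H i) (χ i))
      (fun i => a (H i) (χ i)) (fun i => hs _ _) (fun i => ha _ _) hrel
  have hinv : ∀ (H : Subgroup L.G) (χ : H →* Eˣ),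
      ((s H χ⁻¹ : ℤ) - a H χ⁻¹) = (s H χ : ℤ) - a H χ := by
    intro H χ
    have h1 := sel_unique C L (s ⊥ Ch.triv) (hs ⊥ Ch.triv) H (Ch.inv χ) _ _
      (hd H χ _ (hs H χ)) (hs H (Ch.inv χ))
    have h3 := ord_unique L H (Ch.inv χ) _ _ (ord_inv hG hM L H χ _ (ha H χ)) (ha H (Ch.inv χ))
    have h4 : s H χ⁻¹ = s H χ := h1.symm
    have h5 : a H χ⁻¹ = a H χ := h3.symm
    rw [h4, h5]
  have h2' : ∃ n : ℕ, Nat.card (L.G ⧸ A) = 2 ^ n := by
    obtain ⟨n, hn⟩ := h2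
    exact ⟨n, by rw [← Subgroup.index_eq_card]; exact hn⟩
  have h1 := st_PAR st_EXT st_CNJ L.G E A hA hAs h2' _ hf hinv
    (fun χ hχ => hpar χ hχ _ _ (hs ⊤ χ) (ha ⊤ χ))
  have hHA : H ≤ A := by
    intro x hx
    rw [← QuotientGroup.eq_one_iff]
    obtain ⟨n, hn⟩ := h2'
    have h3 : (QuotientGroup.mk x : L.G ⧸ A) ^ (2 ^ n) = 1 := by
      rw [← hn]
      exact pow_card_eq_one'
    have h4 : (QuotientGroup.mk x : L.G ⧸ A) ^ (Nat.card H) = 1 := by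
      rw [← QuotientGroup.mk_pow]
      have h5 : (⟨x, hx⟩ : H) ^ (Nat.card H) = 1 := pow_card_eq_one'
      have h6 : x ^ (Nat.card H) = 1 := congrArg Subtype.val h5
      rw [h6]
      rfl
    have h7 : Nat.Coprime (2 ^ n) (Nat.card H) :=
      Nat.Coprime.pow_left n ((Nat.coprime_two_left).2 hH)
    rw [← orderOf_eq_one_iff]
    exact Nat.eq_one_of_dvd_coprimes h7 (orderOf_dvd_of_pow_eq_one h3)
      (orderOf_dvd_of_pow_eq_one h4)
  have hHs : Group.IsSolvable H := by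
    have := hAs
    exact Group.isSolvable_of_isSolvable_injective (Subgroup.inclusion_injective hHA)
  have h3 := par_A st_EXT hf hinv H hH hHs
  have h4 : Even ((s H 1 : ℤ) - a H 1) := by
    have h5 : ((s H 1 : ℤ) - a H 1) = ((s ⊥ 1 : ℤ) - a ⊥ 1) -
        (((s ⊥ 1 : ℤ) - a ⊥ 1) - ((s H 1 : ℤ) - a H 1)) := by ring
    rw [h5]
    exact h1.sub h3
  intro s' a' hs' ha'
  rw [sel_unique C L (s ⊥ Ch.triv) (hs ⊥ Ch.triv) H Ch.triv _ _ hs' (hs H Ch.triv),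
    ord_unique L H Ch.triv _ _ ha' (ha H Ch.triv)]
  exact h4

end BKA
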