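import Pool.Agent.Helper64.BKA.EXS
import Pool.Agent.Helper64.BKA.T1

/-!
# T1: the finite dimension is assumed for the Selmer group over `L` only
-/

set_option autoImplicit false

open NumberField
open scoped Classical

namespace BKA

theorem t1s (hG : ST_CJG) (hM : ST_CJM)
    (F E k : Type) [Field F] [NumberField F] [Field E] [Field k] [CharZero k]
    [TopologicalSpace k] [IsTopologicalRing k] (V : Repr F E k) (C : Local V.ρ)
    (L : Ext V) [HasEnoughRootsOfUnity E (Monoid.exponent L.G)]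
    (hs : ∃ s, L.Sel C ⊥ Ch.triv s) (ha : ∀ H χ, ∃ a, L.Ord H χ a)
    (hd : ∀ H χ s, L.Sel C H χ s → L.Sel C H χ.inv s)
    (A : Subgroup L.G) [A.Normal] (hA : Odd (Nat.card A)) (hAs : Group.IsSolvable A)
    (h2 : ∃ n : ℕ, A.index = 2 ^ n)
    (hpar : ∀ χ : Ch E (⊤ : Subgroup L.G), χ.Quad → L.Par C ⊤ χ)
    (H : Subgroup L.G) (hH : Odd (Nat.card H)) : L.Par C H Ch.triv := by
  obtain ⟨s₀, hs₀⟩ := hs
  exact t1 hG hM F E k V C L (fun H χ => sel_exists C L s₀ hs₀ H χ) ha hd A hA hAs h2 hpar H hH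

end BKA
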