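import Pool.Agent.Helper64.BKA.Stmts

/-!
# Parity in extensions with a normal `2`-complement
-/

set_option autoImplicit false
set_option maxHeartbeats 1000000

open scoped Classical

namespace BKA

section par

variable {G R : Type} [Group G] [Fintype G] [Field R]

theorem par_ind {f : (H : Subgroup G) → (H →* Rˣ) → ℤ} (hf : IsArt f) (H K : Subgroup G)
    (χ : H →* Rˣ) (ψ : K →* Rˣ) (h : ∀ g, ind K ψ g = ind H χ g) : f K ψ = f H χ := by
  have h1 := hf 2 (fun i => if i = 0 then H else K)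
    (fun i => if hi : i = 0 then by rw [if_pos hi]; exact χ else by rw [if_neg hi]; exact ψ)
    (fun i => if i = 0 then 1 else -1) (by
      intro g
      rw [Fin.sum_univ_two]
      simp [h g])
  rw [Fin.sum_univ_two] at h1
  simp at h1
  omega

variable [CharZero R]

/-- the sum over the characters of `K` which are trivial on `H` -/
theorem par_ext [HasEnoughRootsOfUnity R (Monoid.exponent G)] (hE : ST_EXT)
    {f : (H : Subgroup G) → (H →* Rˣ) → ℤ} (hf : IsArt f) (H K : Subgroup G) (hHK : H ≤ K)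
    (hc : ∀ a ∈ K, ∀ b ∈ K, a * b * a⁻¹ * b⁻¹ ∈ H) :
    ∃ T : Finset (K →* Rˣ), (∀ χ, χ ∈ T ↔ ∀ h : K, (h : G) ∈ H → χ h = 1) ∧
      f H 1 = ∑ χ ∈ T, f K χ := by
  have hn : (H.subgroupOf K).Normal := by
    refine ⟨fun n hn g => ?_⟩
    rw [Subgroup.mem_subgroupOf] at hn ⊢
    have h1 := H.mul_mem (hc g g.2 n n.2) hn
    simpa [mul_assoc] using h1
  obtain ⟨r, η, hinj, hη, hsum⟩ := hE G R H K hHK 1 hn hc
  refine ⟨Finset.univ.image η, ?_, ?_⟩
  · intro χ
    rw [hη χ]
    simp
  · rw [Finset.sum_image (fun a _ b _ hab => hinj hab)]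
    let P : Fin (r + 1) → Σ L : Subgroup G, (L →* Rˣ) := Fin.cons ⟨H, 1⟩ (fun j => ⟨K, η j⟩)
    let n : Fin (r + 1) → ℤ := Fin.cons 1 (fun _ => -1)
    have h1 := hf (r + 1) (fun i => (P i).1) (fun i => (P i).2) n (by
        intro g
        have h2 : ind H (1 : H →* Rˣ) g = ∑ i, ind K (1 * η i) g := hsum g
        have h3 : ∀ (F : (Σ L : Subgroup G, (L →* Rˣ)) → R),
            ∑ i, (n i : R) * F (P i) = F ⟨H, 1⟩ + ∑ j : Fin r, (-1) * F ⟨K, η j⟩ := by
          intro F
          rw [Fin.sum_univ_succ]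
          simp [P, n]
        refine (h3 (fun p => ind p.1 p.2 g)).trans ?_
        have h6 : ∀ i, (1 : K →* Rˣ) * η i = η i := by
          intro i
          ext k
          simp
        simp only [h6] at h2
        rw [← Finset.mul_sum]
        rw [h2]
        ring)
    have h4 : ∀ (F : (Σ L : Subgroup G, (L →* Rˣ)) → ℤ),
        ∑ i, n i * F (P i) = F ⟨H, 1⟩ + ∑ j : Fin r, (-1) * F ⟨K, η j⟩ := by
      intro F
      rw [Fin.sum_univ_succ]
      simp [P, n]
    have h5 := (h4 (fun p => f p.1 p.2)).symm.trans h1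
    rw [← Finset.mul_sum] at h5
    linarith

theorem par_invol {ι : Type} (T : Finset ι) (F : ι → ℤ) (g : ι → ι) (hg : ∀ a ∈ T, g a ∈ T)
    (hgg : ∀ a ∈ T, g (g a) = a) (hF : ∀ a ∈ T, F (g a) = F a)
    (hfix : ∀ a ∈ T, g a = a → Even (F a)) : Even (∑ a ∈ T, F a) := by
  rw [← ZMod.intCast_eq_zero_iff_even]
  push_cast
  refine Finset.sum_involution (fun a _ => g a) ?_ ?_ (fun a ha => hg a ha) (fun a ha => hgg a ha)
  · intro a ha
    rw [hF a ha]
    exact CharTwo.add_self_eq_zero _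
  · intro a ha h1 h2
    exact h1 (ZMod.intCast_eq_zero_iff_even.2 (hfix a ha h2))

/-- one step with abelian quotient in a group of odd order -/
theorem par_odd [HasEnoughRootsOfUnity R (Monoid.exponent G)] (hE : ST_EXT)
    {f : (H : Subgroup G) → (H →* Rˣ) → ℤ} (hf : IsArt f) (hd : ∀ H χ, f H χ⁻¹ = f H χ)
    (H K : Subgroup G) (hHK : H ≤ K)
    (hc : ∀ a ∈ K, ∀ b ∈ K, a * b * a⁻¹ * b⁻¹ ∈ H) (hK : Odd (Nat.card K)) :
    Even (f H 1 - f K 1) := by
  obtain ⟨T, hT, hs⟩ := par_ext hE hf H K hHK hc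
  have h1 : (1 : K →* Rˣ) ∈ T := (hT 1).2 fun h _ => rfl
  have h2 : f H 1 - f K 1 = ∑ χ ∈ T.erase 1, f K χ := by
    rw [hs, ← Finset.add_sum_erase T _ h1]
    ring
  rw [h2]
  refine par_invol (T.erase 1) (f K) (fun χ => χ⁻¹) ?_ (fun a _ => inv_inv a)
    (fun a _ => hd K a) ?_
  · intro χ hχ
    rw [Finset.mem_erase] at hχ ⊢
    refine ⟨fun h => hχ.1 ?_, (hT _).2 fun h hh => ?_⟩
    · refine MonoidHom.ext fun k => ?_
      have h5 : (χ⁻¹) k = (1 : K →* Rˣ) k := by rw [h]
      rw [MonoidHom.inv_apply, MonoidHom.one_apply, inv_eq_one] at h5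
      rw [h5]
      rfl
    rw [MonoidHom.inv_apply, (hT χ).1 hχ.2 h hh, inv_one]
  · intro χ hχ h3
    exfalso
    rw [Finset.mem_erase] at hχ
    apply hχ.1
    ext k
    have h4 : χ k ^ 2 = 1 := by
      have h5 : (χ⁻¹) k = χ k := by rw [h3]
      rw [MonoidHom.inv_apply] at h5
      rw [pow_two]
      nth_rewrite 1 [← h5]
      exact inv_mul_cancel _
    have h5 : χ k ^ (Nat.card K) = 1 := by
      rw [← map_pow, pow_card_eq_one', map_one]
    have h6 : χ k = 1 := by
      have h7 : Nat.Coprime 2 (Nat.card K) := (Nat.coprime_two_left).2 hK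
      have h8 := orderOf_dvd_of_pow_eq_one h4
      have h9 := orderOf_dvd_of_pow_eq_one h5
      rw [← orderOf_eq_one_iff]
      exact Nat.eq_one_of_dvd_coprimes h7 h8 h9
    rw [h6]
    rfl

/-- the part of odd order -/
theorem par_A [HasEnoughRootsOfUnity R (Monoid.exponent G)] (hE : ST_EXT)
    {f : (H : Subgroup G) → (H →* Rˣ) → ℤ} (hf : IsArt f) (hd : ∀ H χ, f H χ⁻¹ = f H χ)
    (A : Subgroup G) (hA : Odd (Nat.card A)) (hs : Group.IsSolvable A) :
    Even (f ⊥ 1 - f A 1) := by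
  have key : ∀ H : Subgroup A, Even (f ⊥ 1 - f (H.map A.subtype) 1) := by
    intro H
    induction H using WellFoundedLT.induction with
    | ind H ih =>
      by_cases hb : H = ⊥
      · rw [hb, Subgroup.map_bot]
        simp
      · have hlt := Group.IsSolvable.commutator_lt_of_ne_bot hb
        have h1 := ih _ hlt
        have h2 := par_odd hE hf hd ((⁅H, H⁆ : Subgroup A).map A.subtype) (H.map A.subtype)
          (Subgroup.map_mono hlt.le) (by
            rintro a ⟨a', ha', rfl⟩ b ⟨b', hb', rfl⟩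
            refine ⟨a' * b' * a'⁻¹ * b'⁻¹, Subgroup.commutator_mem_commutator ha' hb', ?_⟩
            simp) (by
            have h3 : Nat.card (H.map A.subtype) ∣ Nat.card A :=
              Subgroup.card_dvd_of_le (Subgroup.map_subtype_le H)
            exact Odd.of_dvd_nat hA h3)
        have h4 : f ⊥ 1 - f (H.map A.subtype) 1 =
            (f ⊥ 1 - f ((⁅H, H⁆ : Subgroup A).map A.subtype) 1) +
            (f ((⁅H, H⁆ : Subgroup A).map A.subtype) 1 - f (H.map A.subtype) 1) := by ring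
        rw [h4]
        exact h1.add h2
  have h5 := key ⊤
  have h6 : (⊤ : Subgroup A).map A.subtype = A := by
    rw [← MonoidHom.range_eq_map, Subgroup.range_subtype]
  rwa [h6] at h5

/-- in a noncommutative `2`-group there are `g`, `h` whose commutator is central of order two -/
theorem par_nc (Q : Type) [Group Q] [Finite Q] (hQ : IsPGroup 2 Q)
    (hn : ¬ ∀ a b : Q, a * b * a⁻¹ * b⁻¹ = 1) :
    ∃ g h z : Q, z = g * h * g⁻¹ * h⁻¹ ∧ z ≠ 1 ∧ z * z = 1 ∧ ∀ x : Q, x * z = z * x := by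
  have : Fact (Nat.Prime 2) := ⟨Nat.prime_two⟩
  have h1 : Nontrivial (Q ⧸ Subgroup.center Q) := by
    by_contra hc
    rw [not_nontrivial_iff_subsingleton, QuotientGroup.subsingleton_iff] at hc
    apply hn
    intro a b
    have h2 : b ∈ Subgroup.center Q := by rw [hc]; exact Subgroup.mem_top b
    rw [Subgroup.mem_center_iff] at h2
    rw [h2 a]
    group
  have h2 := (hQ.to_quotient (Subgroup.center Q)).center_nontrivial
  obtain ⟨⟨g', hg'⟩, hg1⟩ := exists_ne (1 : Subgroup.center (Q ⧸ Subgroup.center Q))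
  obtain ⟨g, rfl⟩ := QuotientGroup.mk_surjective g'
  have hg2 : g ∉ Subgroup.center Q := by
    intro hc
    apply hg1
    apply Subtype.ext
    exact (QuotientGroup.eq_one_iff g).2 hc
  have hcen : ∀ h : Q, g * h * g⁻¹ * h⁻¹ ∈ Subgroup.center Q := by
    intro h
    rw [Subgroup.mem_center_iff] at hg'
    have h3 := hg' (QuotientGroup.mk h)
    rw [← QuotientGroup.eq_one_iff]
    have h4 : (QuotientGroup.mk g : Q ⧸ Subgroup.center Q) * QuotientGroup.mk h =
        QuotientGroup.mk h * QuotientGroup.mk g := h3.symm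
    have h5 : (QuotientGroup.mk (g * h * g⁻¹ * h⁻¹) : Q ⧸ Subgroup.center Q) =
        QuotientGroup.mk g * QuotientGroup.mk h * (QuotientGroup.mk g)⁻¹ *
          (QuotientGroup.mk h)⁻¹ := rfl
    rw [h5, h4]
    group
  -- powers
  have hpow : ∀ (h : Q) (n : ℕ), g * h ^ n * g⁻¹ * (h ^ n)⁻¹ = (g * h * g⁻¹ * h⁻¹) ^ n := by
    intro h n
    induction n with
    | zero => simp
    | succ n ih =>
      have h6 := Subgroup.mem_center_iff.1 (hcen (h ^ n)) h
      calc g * h ^ (n + 1) * g⁻¹ * (h ^ (n + 1))⁻¹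
          = g * h * g⁻¹ * h⁻¹ * (h * (g * h ^ n * g⁻¹ * (h ^ n)⁻¹)) * h⁻¹ := by
            rw [pow_succ' h n]
            group
        _ = g * h * g⁻¹ * h⁻¹ * (g * h ^ n * g⁻¹ * (h ^ n)⁻¹) := by
            rw [h6]
            group
        _ = _ := by rw [ih, pow_succ']
  obtain ⟨h0, hh0⟩ : ∃ h0 : Q, g * h0 * g⁻¹ * h0⁻¹ ≠ 1 := by
    by_contra hc
    push Not at hc
    apply hg2
    rw [Subgroup.mem_center_iff]
    intro x
    have := hc x
    calc x * g = 1 * x * g := by rw [one_mul]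
      _ = (g * x * g⁻¹ * x⁻¹) * x * g := by rw [this]
      _ = g * x := by group
  obtain ⟨m, hm⟩ := hQ (g * h0 * g⁻¹ * h0⁻¹)
  have hex : ∃ m : ℕ, (g * h0 * g⁻¹ * h0⁻¹) ^ 2 ^ m = 1 := ⟨m, hm⟩
  have hmin := Nat.find_spec hex
  have hne : Nat.find hex ≠ 0 := by
    intro h7
    rw [h7] at hmin
    apply hh0
    simpa using hmin
  obtain ⟨j, hj⟩ := Nat.exists_eq_succ_of_ne_zero hne
  have hj1 : (g * h0 * g⁻¹ * h0⁻¹) ^ 2 ^ j ≠ 1 := Nat.find_min hex (by omega)
  refine ⟨g, h0 ^ 2 ^ j, _, rfl, ?_, ?_, ?_⟩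
  · rw [hpow]
    exact hj1
  · rw [hpow, ← pow_add, ← two_mul, ← pow_succ']
    rw [hj] at hmin
    exact hmin
  · intro x
    exact Subgroup.mem_center_iff.1 (hcen _) x

/-- one step in the noncommutative case -/
theorem par_step [HasEnoughRootsOfUnity R (Monoid.exponent G)] (hE : ST_EXT) (hC : ST_CNJ)
    {f : (H : Subgroup G) → (H →* Rˣ) → ℤ} (hf : IsArt f) (B : Subgroup G) [B.Normal]
    (g h z : G ⧸ B) (hz : z = g * h * g⁻¹ * h⁻¹) (hzz : z * z = 1) (hzc : ∀ x, x * z = z * x) :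
    Even (f B 1 - f ((Subgroup.zpowers z).comap (QuotientGroup.mk' B)) 1) := by
  let M : Subgroup (G ⧸ B) := Subgroup.closure {g, z}
  let A₁ : Subgroup G := M.comap (QuotientGroup.mk' B)
  let B₁ : Subgroup G := (Subgroup.zpowers z).comap (QuotientGroup.mk' B)
  have hgM : g ∈ M := Subgroup.subset_closure (by simp)
  have hzM : z ∈ M := Subgroup.subset_closure (by simp)
  have hhg : h * g * h⁻¹ = z * g := by
    have h1 : z * z * (h * g) = z * (g * h) := by
      rw [hz]
      have h2 := hzc (g * h)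
      rw [hz] at h2
      calc g * h * g⁻¹ * h⁻¹ * (g * h * g⁻¹ * h⁻¹) * (h * g)
          = g * h * g⁻¹ * h⁻¹ * (g * h) := by group
        _ = _ := rfl
    rw [hzz, one_mul] at h1
    rw [h1]
    group
  -- elements of M
  have hcomm : ∀ a ∈ M, ∀ b ∈ M, a * b = b * a := by
    have h1 : ∀ a ∈ M, a * g = g * a := by
      intro a ha
      induction ha using Subgroup.closure_induction with
      | mem x hx =>
        rcases hx with rfl | hx
        · rfl
        · rw [Set.mem_singleton_iff] at hx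
          rw [hx]
          exact (hzc g).symm
      | one => simp
      | mul x y _ _ hx hy => rw [mul_assoc, hy, ← mul_assoc, hx, mul_assoc]
      | inv x _ hx =>
        calc x⁻¹ * g = x⁻¹ * (g * x) * x⁻¹ := by group
          _ = x⁻¹ * (x * g) * x⁻¹ := by rw [hx]
          _ = g * x⁻¹ := by group
    intro a ha b hb
    induction hb using Subgroup.closure_induction with
    | mem x hx =>
      rcases hx with rfl | hx
      · exact h1 a ha
      · rw [Set.mem_singleton_iff] at hx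
        rw [hx]
        exact hzc a
    | one => simp
    | mul x y _ _ hx hy => rw [← mul_assoc, hx, mul_assoc, hy, mul_assoc]
    | inv x _ hx =>
      calc a * x⁻¹ = x⁻¹ * (x * a) * x⁻¹ := by group
        _ = x⁻¹ * (a * x) * x⁻¹ := by rw [hx]
        _ = x⁻¹ * a := by group
  have hconj : ∀ a ∈ M, h * a * h⁻¹ ∈ M := by
    intro a ha
    induction ha using Subgroup.closure_induction with
    | mem x hx =>
      rcases hx with rfl | hx
      · rw [hhg]
        exact M.mul_mem hzM hgM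
      · rw [Set.mem_singleton_iff] at hx
        rw [hx, hzc h]
        simpa using hzM
    | one => simp
    | mul x y _ _ hx hy =>
      have h2 : h * (x * y) * h⁻¹ = (h * x * h⁻¹) * (h * y * h⁻¹) := by group
      rw [h2]
      exact M.mul_mem hx hy
    | inv x _ hx =>
      have h2 : h * x⁻¹ * h⁻¹ = (h * x * h⁻¹)⁻¹ := by group
      rw [h2]
      exact M.inv_mem hx
  have hconj2 : ∀ a ∈ M, h * (h * a * h⁻¹) * h⁻¹ = a := by
    intro a ha
    induction ha using Subgroup.closure_induction with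
    | mem x hx =>
      rcases hx with rfl | hx
      · rw [hhg]
        calc h * (z * x) * h⁻¹ = (h * z) * x * h⁻¹ := by group
          _ = z * (h * x * h⁻¹) := by rw [hzc h]; group
          _ = z * (z * x) := by rw [hhg]
          _ = (z * z) * x := by group
          _ = x := by rw [hzz, one_mul]
      · rw [Set.mem_singleton_iff] at hx
        rw [hx, hzc h]
        simp [hzc h]
    | one => simp
    | mul x y _ _ hx hy =>
      have h2 : h * (h * (x * y) * h⁻¹) * h⁻¹ = (h * (h * x * h⁻¹) * h⁻¹) *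
          (h * (h * y * h⁻¹) * h⁻¹) := by group
      rw [h2, hx, hy]
    | inv x _ hx =>
      have h2 : h * (h * x⁻¹ * h⁻¹) * h⁻¹ = (h * (h * x * h⁻¹) * h⁻¹)⁻¹ := by
        simp [mul_assoc]
      rw [h2, hx]
  obtain ⟨t, ht⟩ := QuotientGroup.mk_surjective h
  obtain ⟨g₀, hg₀⟩ := QuotientGroup.mk_surjective g
  obtain ⟨z₀, hz₀⟩ := QuotientGroup.mk_surjective z
  have hAmem : ∀ x : G, x ∈ A₁ ↔ (QuotientGroup.mk x : G ⧸ B) ∈ M := fun x => Iff.rfl
  have hBA : B ≤ A₁ := by
    intro x hx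
    rw [hAmem, (QuotientGroup.eq_one_iff x).2 hx]
    exact M.one_mem
  have hB₁A : B₁ ≤ A₁ := by
    intro x hx
    rw [hAmem]
    have hx' : (QuotientGroup.mk x : G ⧸ B) ∈ Subgroup.zpowers z := hx
    exact (Subgroup.zpowers_le.2 hzM) hx'
  have hBB₁ : B ≤ B₁ := by
    intro x hx
    show (QuotientGroup.mk x : G ⧸ B) ∈ Subgroup.zpowers z
    rw [(QuotientGroup.eq_one_iff x).2 hx]
    exact Subgroup.one_mem _
  have hcB : ∀ a ∈ A₁, ∀ b ∈ A₁, a * b * a⁻¹ * b⁻¹ ∈ B := by
    intro a ha b hb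
    rw [← QuotientGroup.eq_one_iff]
    have h1 := hcomm _ ((hAmem a).1 ha) _ ((hAmem b).1 hb)
    have h2 : (QuotientGroup.mk (a * b * a⁻¹ * b⁻¹) : G ⧸ B) =
        QuotientGroup.mk a * QuotientGroup.mk b * (QuotientGroup.mk a)⁻¹ *
          (QuotientGroup.mk b)⁻¹ := rfl
    rw [h2, h1]
    group
  obtain ⟨T, hT, hsT⟩ := par_ext hE hf B A₁ hBA hcB
  obtain ⟨T₁, hT₁, hsT₁⟩ := par_ext hE hf B₁ A₁ hB₁A (fun a ha b hb => hBB₁ (hcB a ha b hb))
  have hsub : T₁ ⊆ T := by
    intro χ hχ
    rw [hT]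
    rw [hT₁] at hχ
    exact fun x hx => hχ x (hBB₁ hx)
  have hdiff : f B 1 - f B₁ 1 = ∑ χ ∈ T \ T₁, f A₁ χ := by
    rw [hsT, hsT₁, ← Finset.sum_sdiff hsub]
    ring
  show Even (f B 1 - f B₁ 1)
  rw [hdiff]
  have htA : ∀ x : A₁, t * (x : G) * t⁻¹ ∈ A₁ := by
    intro x
    rw [hAmem]
    have h2 : (QuotientGroup.mk (t * (x : G) * t⁻¹) : G ⧸ B) =
        QuotientGroup.mk t * QuotientGroup.mk (x : G) * (QuotientGroup.mk t)⁻¹ := rfl
    rw [h2, ht]
    exact hconj _ ((hAmem _).1 x.2)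
  let c : A₁ →* A₁ :=
    { toFun := fun x => ⟨t * (x : G) * t⁻¹, htA x⟩
      map_one' := by
        apply Subtype.ext
        simp
      map_mul' := by
        intro x y
        apply Subtype.ext
        simp [mul_assoc] }
  have hcval : ∀ x : A₁, ((c x : A₁) : G) = t * (x : G) * t⁻¹ := fun x => rfl
  -- the value at z₀
  have hz₀A : z₀ ∈ A₁ := by rw [hAmem, hz₀]; exact hzM
  have hg₀A : g₀ ∈ A₁ := by rw [hAmem, hg₀]; exact hgM
  have htriv : ∀ χ ∈ T, ∀ x y : A₁, (QuotientGroup.mk (x : G) : G ⧸ B) = QuotientGroup.mk (y : G) →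
      χ x = χ y := by
    intro χ hχ x y hxy
    have h3 : χ (x⁻¹ * y) = 1 := by
      apply (hT χ).1 hχ
      exact QuotientGroup.eq.1 hxy
    rw [map_mul, map_inv] at h3
    calc χ x = χ x * ((χ x)⁻¹ * χ y) := by rw [h3, mul_one]
      _ = χ y := by group
  have hzT : ∀ χ ∈ T, (χ ∈ T₁ ↔ χ ⟨z₀, hz₀A⟩ = 1) := by
    intro χ hχ
    constructor
    · intro h4
      apply (hT₁ χ).1 h4
      show (QuotientGroup.mk z₀ : G ⧸ B) ∈ Subgroup.zpowers z
      rw [hz₀]
      exact Subgroup.mem_zpowers z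
    · intro h4
      rw [hT₁]
      intro x hx
      have hx' : (QuotientGroup.mk (x : G) : G ⧸ B) ∈ Subgroup.zpowers z := hx
      obtain ⟨n, hn⟩ := Subgroup.mem_zpowers_iff.1 hx'
      have h5 : χ x = χ (⟨z₀, hz₀A⟩ ^ n) := by
        apply htriv χ hχ
        rw [← hn, ← hz₀]
        rfl
      rw [h5, map_zpow, h4, one_zpow]
  refine par_invol (T \ T₁) (f A₁) (fun χ => χ.comp c) ?_ ?_ ?_ ?_
  · intro χ hχ
    rw [Finset.mem_sdiff] at hχ ⊢
    have h1 : χ.comp c ∈ T := by
      rw [hT]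
      intro x hx
      rw [MonoidHom.comp_apply]
      apply (hT χ).1 hχ.1
      rw [hcval]
      exact ‹B.Normal›.conj_mem _ hx t
    refine ⟨h1, ?_⟩
    rw [hzT _ h1]
    rw [hzT _ hχ.1] at hχ
    intro h4
    apply hχ.2
    rw [← h4, MonoidHom.comp_apply]
    apply htriv χ hχ.1
    rw [hcval]
    have h2 : (QuotientGroup.mk (t * z₀ * t⁻¹) : G ⧸ B) =
        QuotientGroup.mk t * QuotientGroup.mk z₀ * (QuotientGroup.mk t)⁻¹ := rfl
    show (QuotientGroup.mk z₀ : G ⧸ B) = (QuotientGroup.mk (t * z₀ * t⁻¹) : G ⧸ B)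
    rw [h2, ht, hz₀, hzc h]
    group
  · intro χ hχ
    rw [Finset.mem_sdiff] at hχ
    refine MonoidHom.ext fun x => ?_
    rw [MonoidHom.comp_apply, MonoidHom.comp_apply]
    apply htriv χ hχ.1
    rw [hcval, hcval]
    have h2 : (QuotientGroup.mk (t * (t * (x : G) * t⁻¹) * t⁻¹) : G ⧸ B) =
        QuotientGroup.mk t * (QuotientGroup.mk t * QuotientGroup.mk (x : G) *
          (QuotientGroup.mk t)⁻¹) * (QuotientGroup.mk t)⁻¹ := rfl
    rw [h2, ht]
    exact hconj2 _ ((hAmem _).1 x.2)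
  · intro χ hχ
    refine (par_ind hf A₁ A₁ (χ.comp c) χ (hC G R A₁ A₁ (χ.comp c) χ t ?_)).symm
    intro y
    unfold ext
    by_cases hy : y ∈ A₁
    · have hy2 : t * y * t⁻¹ ∈ A₁ := htA ⟨y, hy⟩
      rw [dif_pos hy, dif_pos hy2]
      rfl
    · have hy2 : ¬ t * y * t⁻¹ ∈ A₁ := by
        intro h4
        apply hy
        have h5 := htA ⟨_, h4⟩
        rw [hAmem] at h5 ⊢
        have h6 : (QuotientGroup.mk (t * (t * y * t⁻¹) * t⁻¹) : G ⧸ B) =
          QuotientGroup.mk t * (QuotientGroup.mk t * QuotientGroup.mk y *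
          (QuotientGroup.mk t)⁻¹) * (QuotientGroup.mk t)⁻¹ := rfl
        -- t⁻¹ acts by conjugation like t on M
        have h7 : (QuotientGroup.mk t * QuotientGroup.mk y * (QuotientGroup.mk t)⁻¹ : G ⧸ B) ∈ M :=
          (hAmem _).1 h4
        rw [ht] at h7
        have h8 := hconj2 _ h7
        have h9 : h * (h * (h * (QuotientGroup.mk y : G ⧸ B) * h⁻¹) * h⁻¹) * h⁻¹ =
          h * (QuotientGroup.mk y : G ⧸ B) * h⁻¹ := h8
        have h10 : h * (h * (QuotientGroup.mk y : G ⧸ B) * h⁻¹) * h⁻¹ =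
            (QuotientGroup.mk y : G ⧸ B) := by
          have h11 := congrArg (fun w => h⁻¹ * w * h) h9
          simpa [mul_assoc] using h11
        rw [← h10]
        exact hconj _ h7
      rw [dif_neg hy, dif_neg hy2]
  · intro χ hχ h4
    exfalso
    rw [Finset.mem_sdiff] at hχ
    rw [hzT _ hχ.1] at hχ
    apply hχ.2
    have h5 : χ (c ⟨g₀, hg₀A⟩) = χ ⟨g₀, hg₀A⟩ := by
      rw [← MonoidHom.comp_apply, h4]
    have h6 : χ (c ⟨g₀, hg₀A⟩) = χ (⟨z₀, hz₀A⟩ * ⟨g₀, hg₀A⟩) := by
      apply htriv χ hχ.1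
      rw [hcval]
      have h2 : (QuotientGroup.mk (t * g₀ * t⁻¹) : G ⧸ B) =
        QuotientGroup.mk t * QuotientGroup.mk g₀ * (QuotientGroup.mk t)⁻¹ := rfl
      have h3 : (QuotientGroup.mk (z₀ * g₀) : G ⧸ B) =
        QuotientGroup.mk z₀ * QuotientGroup.mk g₀ := rfl
      show (QuotientGroup.mk (t * g₀ * t⁻¹) : G ⧸ B) = (QuotientGroup.mk (z₀ * g₀) : G ⧸ B)
      rw [h2, h3, ht, hz₀, hg₀]
      exact hhg
    rw [h6, map_mul] at h5
    exact mul_eq_right.1 h5

/-- **PAR** -/
theorem st_PAR (hE : ST_EXT) (hC : ST_CNJ) : ST_PAR := by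
  intro G R _ _ _ _ _ A _ hodd hsol hcard f hf hd htop
  have h2 : Fact (Nat.Prime 2) := ⟨Nat.prime_two⟩
  have key : ∀ n : ℕ, ∀ B : Subgroup G, ∀ _ : B.Normal, A ≤ B → Nat.card (G ⧸ B) ≤ n →
      Even (f B 1) := by
    intro n
    induction n with
    | zero =>
      intro B _ _ hn
      have := Nat.card_pos (α := G ⧸ B)
      omega
    | succ n ih =>
      intro B hB hAB hn
      have hP : IsPGroup 2 (G ⧸ B) := by
        rw [IsPGroup.iff_card]
        obtain ⟨m, hm⟩ := hcard
        have h3 : Nat.card (G ⧸ B) ∣ 2 ^ m := by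
          rw [← hm, ← Subgroup.index_eq_card, ← Subgroup.index_eq_card]
          exact Subgroup.index_dvd_of_le hAB
        obtain ⟨j, _, hj⟩ := (Nat.dvd_prime_pow Nat.prime_two).1 h3
        exact ⟨j, hj⟩
      by_cases hc : ∀ a b : G ⧸ B, a * b * a⁻¹ * b⁻¹ = 1
      · obtain ⟨T, hT, hs⟩ := par_ext hE hf B ⊤ le_top (by
          intro a _ b _
          rw [← QuotientGroup.eq_one_iff]
          exact hc (QuotientGroup.mk a) (QuotientGroup.mk b))
        rw [hs]
        refine par_invol T (f ⊤) (fun χ => χ⁻¹) ?_ ?_ (fun χ _ => hd ⊤ χ) ?_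
        · intro χ hχ
          rw [hT] at hχ ⊢
          intro x hx
          rw [MonoidHom.inv_apply, hχ x hx, inv_one]
        · intro χ _
          refine MonoidHom.ext fun x => ?_
          simp
        · intro χ _ h4
          apply htop
          refine MonoidHom.ext fun x => ?_
          have h5 : (χ⁻¹) x = χ x := by rw [h4]
          rw [MonoidHom.inv_apply] at h5
          show (χ ^ 2) x = 1
          rw [MonoidHom.pow_apply, pow_two]
          nth_rewrite 1 [← h5]
          exact inv_mul_cancel _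
      · obtain ⟨g, h, z, hz, hz1, hzz, hzc⟩ := par_nc (G ⧸ B) hP hc
        have h5 := par_step hE hC hf B g h z hz hzz hzc
        have hN : ((Subgroup.zpowers z).comap (QuotientGroup.mk' B)).Normal := by
          have h6 : (Subgroup.zpowers z).Normal := by
            refine ⟨fun x hx y => ?_⟩
            obtain ⟨j, rfl⟩ := Subgroup.mem_zpowers_iff.1 hx
            have h7 : y * z ^ j * y⁻¹ = z ^ j := by
              have h8 : Commute y (z ^ j) := Commute.zpow_right (hzc y) j
              rw [h8.eq]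
              group
            rw [h7]
            exact Subgroup.zpow_mem_zpowers z j
          exact h6.comap _
        have h6 := ih ((Subgroup.zpowers z).comap (QuotientGroup.mk' B)) hN (by
          refine hAB.trans ?_
          intro x hx
          show (QuotientGroup.mk x : G ⧸ B) ∈ Subgroup.zpowers z
          rw [(QuotientGroup.eq_one_iff x).2 hx]
          exact Subgroup.one_mem _) (by
          have h7 : B < (Subgroup.zpowers z).comap (QuotientGroup.mk' B) := by
            refine lt_of_le_of_ne ?_ ?_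
            · intro x hx
              show (QuotientGroup.mk x : G ⧸ B) ∈ Subgroup.zpowers z
              rw [(QuotientGroup.eq_one_iff x).2 hx]
              exact Subgroup.one_mem _
            · intro h8
              apply hz1
              obtain ⟨z₀, hz₀⟩ := QuotientGroup.mk_surjective z
              have h9 : z₀ ∈ (Subgroup.zpowers z).comap (QuotientGroup.mk' B) := by
                show (QuotientGroup.mk z₀ : G ⧸ B) ∈ Subgroup.zpowers z
                rw [hz₀]
                exact Subgroup.mem_zpowers z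
              rw [← h8] at h9
              rw [← hz₀]
              exact (QuotientGroup.eq_one_iff z₀).2 h9
          have h8 := Subgroup.index_strictAnti h7
          rw [Subgroup.index_eq_card, Subgroup.index_eq_card] at h8
          omega)
        have h7 : f B 1 = (f B 1 - f ((Subgroup.zpowers z).comap (QuotientGroup.mk' B)) 1) +
            f ((Subgroup.zpowers z).comap (QuotientGroup.mk' B)) 1 := by ring
        rw [h7]
        exact h5.add h6
  have h3 := par_A hE hf hd A hodd hsol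
  have h4 := key (Nat.card (G ⧸ A)) A inferInstance le_rfl le_rfl
  have h5 : f ⊥ 1 = (f ⊥ 1 - f A 1) + f A 1 := by ring
  rw [h5]
  exact h3.add h4

end par

end BKA
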