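import Pool.Agent.Helper64.BKA.Core
import Pool.Agent.Helper64.BKA.PAR
import Pool.Agent.Helper39.BKA.CNJ
import Pool.Agent.Helper39.BKA.EXT
import Pool.Agent.Helper76.BKA.BND
import Pool.Agent.Helper76.BKA.FRO
import Pool.Agent.Helper76.BKA.SUM
import Pool.Agent.Helper82.BKA.CYC
import Pool.Agent.Helper15.BKA.EUL
import Pool.Agent.Helper19.BKA.REL
import Pool.Agent.Helper60.BKA.SRES
import Pool.Agent.Helper95.BKA.SEL
import Pool.Agent.Helper10.BKA.LOC

/-!
# Artin formalism for the difference of the two sides of the rank formula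
-/

set_option autoImplicit false

open NumberField
open scoped Classical

namespace BKA

section

variable {G : Type} [Group G] [Fintype G]

lemma ind_map {E R : Type} [Field E] [Field R] (e : E →+* R) (H : Subgroup G) (χ : Ch E H)
    (x : G) : ind H (χ.map e) x = e (ind H χ.hom x) := by
  unfold ind
  rw [map_mul, map_inv₀, map_natCast, map_sum]
  congr 1
  refine Finset.sum_congr rfl fun y _ => ?_
  unfold ext
  split_ifs with h
  · rfl
  · rw [map_zero]

lemma rel_map {E R : Type} [Field E] [Field R] (e : E →+* R) {r : ℕ} (H : Fin r → Subgroup G)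
    (χ : ∀ i, Ch E (H i)) (n : Fin r → ℤ)
    (h : ∀ x : G, ∑ i, (n i : E) * ind (H i) (χ i).hom x = 0)
    (x : G) : ∑ i, (n i : R) * ind (H i) ((χ i).map e) x = 0 := by
  have h1 := congrArg e (h x)
  rw [map_sum, map_zero] at h1
  rw [← h1]
  refine Finset.sum_congr rfl fun i _ => ?_
  rw [ind_map, map_mul, map_intCast]

end

variable {F E k : Type} [Field F] [NumberField F] [Field E] [Field k]
    [TopologicalSpace k] {V : Repr F E k}

/-- the relation for the Selmer groups -/
theorem art_sel [CharZero k] [IsTopologicalRing k] (C : Local V.ρ) (L : Ext V) (s₀ : ℕ)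
    (h0 : L.Sel C ⊥ Ch.triv s₀) {r : ℕ}
    (H : Fin r → Subgroup L.G) (χ : ∀ i, Ch E (H i)) (n : Fin r → ℤ) (s : Fin r → ℕ)
    (hs : ∀ i, L.Sel C (H i) (χ i) (s i))
    (hrel : ∀ x, ∑ i, (n i : E) * ind (H i) (χ i).hom x = 0) :
    ∑ i, n i * (s i : ℤ) = 0 := by
  have := L.normal
  let hF : Fintype (Gal F ⧸ L.N) := Ext.instF L
  refine st_SEL st_SRES st_FRO k (Gal F) 2 V.ρ C L.N V.cont L.isOpen s₀ ?_ r H
    (fun i => (χ i).map V.emb) n s hs (rel_map V.emb H χ n hrel)
  have h1 : (Ch.triv : Ch E (⊥ : Subgroup L.G)).map V.emb = 1 := MonoidHom.comp_one _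
  unfold Ext.Sel at h0
  rw [h1] at h0
  exact h0

/-- the relation for the orders of the `L`-functions -/
theorem art_ord (L : Ext V) {r : ℕ}
    (H : Fin r → Subgroup L.G) (χ : ∀ i, Ch E (H i)) (n : Fin r → ℤ) (a : Fin r → ℤ)
    (ha : ∀ i, L.Ord (H i) (χ i) (a i))
    (hrel : ∀ x, ∑ i, (n i : E) * ind (H i) (χ i).hom x = 0) :
    ∑ i, n i * a i = 0 := by
  choose Λ hmer hΛ hord using ha
  have hq := (st_SUM F).1
  have hsum := (st_SUM F).2
  have h2 := st_REL st_EUL st_BND L.G {v // v ∉ V.S} (fun v => q (v : Pl F))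
    (fun v => L.g v) 2 (fun v => V.α v) 0 r H (fun i => (χ i).map V.ι) n Λ
    (fun v => hq v) (fun σ hσ => (hsum σ hσ).subtype _)
    (fun v j => by
      rw [zero_div, Real.rpow_zero]
      exact V.bound v v.2 j)
    hmer
    (fun i s hs => hΛ i s (by
      rwa [zero_div, zero_add] at hs))
    (rel_map V.ι H χ n hrel)
  have h3 := h2.2.1 0
  rw [← h3]
  refine Finset.sum_congr rfl fun i _ => ?_
  rw [hord i, WithTop.untop₀_coe]

/-- **Artin formalism** for the difference of the two sides of the rank formula. -/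
theorem art [CharZero k] [IsTopologicalRing k] (C : Local V.ρ) (L : Ext V) (s₀ : ℕ)
    (h0 : L.Sel C ⊥ Ch.triv s₀) {r : ℕ}
    (H : Fin r → Subgroup L.G) (χ : ∀ i, Ch E (H i)) (n : Fin r → ℤ) (s : Fin r → ℕ)
    (a : Fin r → ℤ) (hs : ∀ i, L.Sel C (H i) (χ i) (s i))
    (ha : ∀ i, L.Ord (H i) (χ i) (a i))
    (hrel : ∀ x, ∑ i, (n i : E) * ind (H i) (χ i).hom x = 0) :
    ∑ i, n i * ((s i : ℤ) - a i) = 0 := by
  have h1 := art_sel C L s₀ h0 H χ n s hs hrel
  have h2 := art_ord L H χ n a ha hrel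
  simp only [mul_sub, Finset.sum_sub_distrib, h1, h2, sub_zero]

/-- uniqueness of the dimension -/
theorem sel_unique [CharZero k] [IsTopologicalRing k] (C : Local V.ρ) (L : Ext V) (s₀ : ℕ)
    (h0 : L.Sel C ⊥ Ch.triv s₀) (H : Subgroup L.G) (χ : Ch E H) (s s' : ℕ)
    (hs : L.Sel C H χ s) (hs' : L.Sel C H χ s') : s = s' := by
  have h1 := art_sel C L s₀ h0 (r := 2) (fun _ => H) (fun _ => χ)
    (fun i => if i = 0 then 1 else -1) (fun i => if i = 0 then s else s')
    (fun i => by
      by_cases hi : i = 0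
      · simpa [hi] using hs
      · simpa [hi] using hs')
    (fun x => by
      rw [Fin.sum_univ_two]
      simp)
  rw [Fin.sum_univ_two] at h1
  simp only [Fin.isValue, one_ne_zero, if_true, if_false] at h1
  omega

/-- uniqueness of the order -/
theorem ord_unique (L : Ext V) (H : Subgroup L.G) (χ : Ch E H) (a a' : ℤ)
    (ha : L.Ord H χ a) (ha' : L.Ord H χ a') : a = a' := by
  have h1 := art_ord L (r := 2) (fun _ => H) (fun _ => χ)
    (fun i => if i = 0 then 1 else -1) (fun i => if i = 0 then a else a')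
    (fun i => by
      by_cases hi : i = 0
      · simpa [hi] using ha
      · simpa [hi] using ha')
    (fun x => by
      rw [Fin.sum_univ_two]
      simp)
  rw [Fin.sum_univ_two] at h1
  simp only [Fin.isValue, one_ne_zero, if_true, if_false] at h1
  omega

end BKA
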