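import Pool.Agent.Helper64.BKA.Art
import Pool.Agent.Helper64.BKA.Stmts3

/-!
# The order at `s = 0` does not change if `χ` is replaced by `χ⁻¹`
-/

set_option autoImplicit false

open NumberField
open scoped Classical ComplexConjugate

namespace BKA

/-- The functional equation is not needed for this. -/
theorem ord_inv (hG : ST_CJG) (hM : ST_CJM) {F E k : Type} [Field F] [NumberField F] [Field E]
    [Field k] [TopologicalSpace k] {V : Repr F E k} (L : Ext V)
    (H : Subgroup L.G) (χ : Ch E H) (a : ℤ) (ha : L.Ord H χ a) : L.Ord H χ.inv a := by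
  obtain ⟨Λ, hm, hΛ, ho⟩ := ha
  have hc := hM Λ hm
  have hfac : ∀ v ∉ V.S, (V.α v 0 + V.α v 1).im = 0 ∧ (V.α v 0 * V.α v 1).im = 0 := by
    intro v hv
    have h1 := V.fac v hv 1
    have h2 := V.fac v hv (-1)
    have h3 : V.α v 0 + V.α v 1 = V.ι (V.t v) * (q v : ℂ)⁻¹ := by linear_combination (h2 - h1) / 2
    have h4 : V.α v 0 * V.α v 1 = (q v : ℂ)⁻¹ := by linear_combination (h1 + h2) / 2
    have h5 : ((q v : ℂ)⁻¹).im = 0 := by
      have : ((q v : ℂ)⁻¹) = (((q v : ℝ)⁻¹ : ℝ) : ℂ) := by push_cast; rfl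
      rw [this, Complex.ofReal_im]
    rw [h3, h4, Complex.mul_im, h5, V.real v hv]
    simp
  refine ⟨fun s => conj (Λ (conj s)), hc.1, fun s hs => ?_, ?_⟩
  · have h2 : 1 < (conj s).re := by rwa [Complex.conj_re]
    have h3 := hG L.G {v // v ∉ V.S} (fun v => q (v : Pl F)) (fun v => L.g v)
      (fun v => V.α v) H (χ.map V.ι) s
      (fun v => (hfac v v.2).1) (fun v => (hfac v v.2).2)
    have h4 : (χ.inv).map V.ι = (χ.map V.ι)⁻¹ := by
      refine MonoidHom.ext fun x => ?_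
      show (Units.map (V.ι : E →* ℂ)) ((χ.hom x)⁻¹) = ((Units.map (V.ι : E →* ℂ)) (χ.hom x))⁻¹
      rw [map_inv]
    show conj (Λ (conj s)) = L.LF H χ.inv s
    unfold Ext.LF
    rw [h4]
    refine Eq.trans ?_ h3.symm
    rw [hΛ _ h2]
    rfl
  · rw [hc.2 0, map_zero, ho]

end BKA
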