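import Pool.Agent.Helper64.BKA.Stmts

/-!
# The Galois representation and the `L`-function of a Hilbert modular form, over the intermediate
fields of a finite Galois extension: definitions
-/

set_option autoImplicit false

open NumberField
open scoped Classical

namespace BKA

/-- The characters of the subgroup `H` of `G` with values in the field `R`. -/
def Ch (R : Type) [Field R] {G : Type} [Group G] (H : Subgroup G) : Type := H →* Rˣ

section Ch

variable {R R' : Type} [Field R] [Field R'] {G : Type} [Group G] {H : Subgroup G}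

/-- the character as a homomorphism -/
def Ch.hom (χ : Ch R H) : H →* Rˣ := χ

/-- the trivial character -/
def Ch.triv : Ch R H := (1 : H →* Rˣ)

/-- the inverse of the character `χ` -/
def Ch.inv (χ : Ch R H) : Ch R H := (χ.hom⁻¹ : H →* Rˣ)

/-- The character `χ` is trivial or quadratic. -/
def Ch.Quad (χ : Ch R H) : Prop := χ.hom ^ 2 = 1

/-- the image of the character `χ` under the field homomorphism `e` -/
def Ch.map (χ : Ch R H) (e : R →+* R') : H →* R'ˣ := (Units.map (e : R →* R')).comp χ.hom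

end Ch

/-- The Galois representation `V = V_{g,λ}` of `Gal F` over the field `k ⊇ E_λ` and the Hecke
eigenvalues of `g` in `E`. -/
structure Repr (F E k : Type) [Field F] [NumberField F] [Field E] [Field k]
    [TopologicalSpace k] where
  /-- the Hecke eigenvalues -/
  t : Pl F → E
  /-- the finite set of bad places, including the places over `p` -/
  S : Finset (Pl F)
  /-- the embedding of the coefficients into `k` -/
  emb : E →+* k
  /-- the embedding of the coefficients into the complex numbers -/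
  ι : E →+* ℂ
  /-- the representation `V` -/
  ρ : Gal F →* Matrix.GeneralLinearGroup (Fin 2) k
  cont : Continuous ρ
  /-- `V` is unramified at the good places -/
  unr : ∀ v ∉ S, ∀ 𝔓 : Ideal (Zb F), Over v 𝔓 → ∀ σ, Congr 𝔓 1 σ → ρ σ = 1
  /-- the characteristic polynomial of the arithmetic Frobenius element is `X² - t_v X + q_v` -/
  frob : ∀ v ∉ S, ∀ 𝔓 : Ideal (Zb F), Over v 𝔓 → ∀ σ, Congr 𝔓 (q v) σ →
    ((ρ σ : Matrix.GeneralLinearGroup (Fin 2) k) : Matrix (Fin 2) (Fin 2) k).charpoly =
      Polynomial.X ^ 2 - Polynomial.C (emb (t v)) * Polynomial.X + Polynomial.C (q v : k)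
  /-- the complex numbers `α` with `(1 - α 0 Y) (1 - α 1 Y) = 1 - t_v q_v⁻¹ Y + q_v⁻¹ Y²` -/
  α : Pl F → Fin 2 → ℂ
  fac : ∀ v ∉ S, ∀ Y : ℂ,
    (1 - α v 0 * Y) * (1 - α v 1 * Y) = 1 - ι (t v) * (q v : ℂ)⁻¹ * Y + (q v : ℂ)⁻¹ * Y ^ 2
  /-- the trivial bound (the Ramanujan bound is `q_v` to the power `-1/2`) -/
  bound : ∀ v ∉ S, ∀ j, ‖α v j‖ ≤ 1
  /-- the Hecke eigenvalues are real, since the central character is trivial -/
  real : ∀ v ∉ S, (ι (t v)).im = 0

/-- A finite Galois extension `L` of `F`, unramified outside the bad places of `V`, given by the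
open normal subgroup `N = Gal L` of `Gal F`, with Frobenius elements `g v` in its Galois group. -/
structure Ext {F E k : Type} [Field F] [NumberField F] [Field E] [Field k]
    [TopologicalSpace k] (V : Repr F E k) where
  N : Subgroup (Gal F)
  normal : N.Normal
  isOpen : IsOpen (N : Set (Gal F))
  fin : Finite (Gal F ⧸ N)
  g : Pl F → Gal F ⧸ N
  unr : ∀ v ∉ V.S, ∀ 𝔓 : Ideal (Zb F), Over v 𝔓 → ∀ σ, Congr 𝔓 1 σ → σ ∈ N
  frob : ∀ v ∉ V.S, ∃ (𝔓 : Ideal (Zb F)) (σ : Gal F), Over v 𝔓 ∧ Congr 𝔓 (q v) σ ∧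
    g v = QuotientGroup.mk σ

section Ext

variable {F E k : Type} [Field F] [NumberField F] [Field E] [Field k] [TopologicalSpace k]
  {V : Repr F E k}

/-- the Galois group of `L / F`; a subgroup `H` stands for the field `K = L^H` -/
def Ext.G (L : Ext V) : Type := Gal F ⧸ L.N

/-- the group structure of the quotient -/
noncomputable instance Ext.instG (L : Ext V) : Group L.G :=
  @QuotientGroup.Quotient.group (Gal F) _ L.N L.normal

noncomputable instance Ext.instF (L : Ext V) : Fintype L.G :=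
  @Fintype.ofFinite (Gal F ⧸ L.N) L.fin

/-- the restriction of automorphisms to `L` -/
noncomputable def Ext.res (L : Ext V) : Gal F →* L.G :=
  @QuotientGroup.mk' (Gal F) _ L.N L.normal

/-- the absolute Galois group of `K = L^H` -/
noncomputable def Ext.gal (L : Ext V) (H : Subgroup L.G) : Subgroup (Gal F) := H.comap L.res

/-- The Selmer group of `V ⊗ χ` over `K = L^H`, for the local conditions `C`, has dimension `s`. -/
def Ext.Sel (L : Ext V) (C : Local V.ρ) (H : Subgroup L.G) (χ : Ch E H) (s : ℕ) : Prop :=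
  SelDim V.ρ C (L.gal H) ((χ.map V.emb).comp (L.res.subgroupComap H)) s

/-- The Euler product `L (V ⊗ χ / K, s)` over `K = L^H`, without the places over `S`. For `K = F`
and `χ = 1` it is the product of `(1 - t_v q_v^(-s-1) + q_v^(-2s-1))⁻¹`. -/
noncomputable def Ext.LF (L : Ext V) (H : Subgroup L.G) (χ : Ch E H) (s : ℂ) : ℂ :=
  LL (G := L.G) (fun v : {v // v ∉ V.S} => q (v : Pl F)) (fun v => L.g v) (fun v => V.α v) H
    (χ.map V.ι) s

/-- `L (V ⊗ χ / K, s)` has a meromorphic continuation to `ℂ`, with order `a` at `s = 0`. -/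
def Ext.Ord (L : Ext V) (H : Subgroup L.G) (χ : Ch E H) (a : ℤ) : Prop :=
  ∃ Λ : ℂ → ℂ, MeromorphicOn Λ Set.univ ∧ (∀ s : ℂ, 1 < s.re → Λ s = L.LF H χ s) ∧
    meromorphicOrderAt Λ 0 = a

/-- The rank formula for `V` over `K = L^H`. -/
def Ext.Rank (L : Ext V) (C : Local V.ρ) (H : Subgroup L.G) : Prop :=
  ∀ (s : ℕ) (a : ℤ), L.Sel C H Ch.triv s → L.Ord H Ch.triv a → (s : ℤ) = a

/-- The parity of the rank formula for `V ⊗ χ` over `K = L^H`. -/
def Ext.Par (L : Ext V) (C : Local V.ρ) (H : Subgroup L.G) (χ : Ch E H) : Prop :=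
  ∀ (s : ℕ) (a : ℤ), L.Sel C H χ s → L.Ord H χ a → Even ((s : ℤ) - a)

end Ext

/-- A two-dimensional representation of `Gal F` over an algebraically closed field, and a set of
places. -/
structure Aux (F : Type) [Field F] [NumberField F] where
  K : Type
  [inst1 : Field K]
  [inst2 : CharZero K]
  [inst3 : IsAlgClosed K]
  r : Gal F →* Matrix.GeneralLinearGroup (Fin 2) K
  B : Set (Pl F)

attribute [instance] Aux.inst1 Aux.inst2 Aux.inst3

/-- the matrix by which `σ` acts -/
noncomputable def Aux.M {F : Type} [Field F] [NumberField F] (R : Aux F) (σ : Gal F) :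
    Matrix (Fin 2) (Fin 2) R.K :=
  ((R.r σ : Matrix.GeneralLinearGroup (Fin 2) R.K) : Matrix (Fin 2) (Fin 2) R.K)

/-- For `Gal L = N`: all elements of the inertia groups over `L` at the places of the set `R.B` act
unipotently through `R.r`. -/
def Aux.Unip {F : Type} [Field F] [NumberField F] (R : Aux F) (N : Subgroup (Gal F)) : Prop :=
  ∀ v ∈ R.B, ∀ 𝔓 : Ideal (Zb F), Over v 𝔓 → ∀ σ ∈ N, Congr 𝔓 1 σ → (R.M σ - 1) ^ 2 = 0

/-- For `Gal K = U`: at all places of `K` over the places of the set `R.B` the restriction of `R.r`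
to the decomposition group is reducible. -/
def Aux.Red {F : Type} [Field F] [NumberField F] (R : Aux F) (U : Subgroup (Gal F)) : Prop :=
  ∀ v ∈ R.B, ∀ 𝔓 : Ideal (Zb F), Over v 𝔓 → ∃ e : Fin 2 → R.K, e ≠ 0 ∧ ∀ σ ∈ U,
    (∀ x y : Zb F, (y : AlgebraicClosure F) = σ (x : AlgebraicClosure F) → (x ∈ 𝔓 ↔ y ∈ 𝔓)) →
    ∃ a : R.K, (R.M σ).mulVec e = a • e

end BKA
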