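import Pool.Agent.Helper64.BKA.Stmts

/-!
# Artin formalism, second part: twists by Artin representations of any dimension, and the factor
`Δ_K` without restriction
-/

set_option autoImplicit false

open NumberField
open scoped Classical

namespace BKA

/-- The Euler product, outside a set of places, of the `L`-function of `V ⊗ τ` over `F`, where `τ`
is a representation of the Galois group `G` of `L / F`. -/
noncomputable def LT {G : Type} [Group G] {I : Type} {d r : ℕ} (q : I → ℕ) (g : I → G)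
    (α : I → Fin d → ℂ) (τ : G →* Matrix.GeneralLinearGroup (Fin r) ℂ) (s : ℂ) : ℂ :=
  ∏' v : I, ∏ j : Fin d, (Matrix.det (1 - (α v j * (q v : ℂ) ^ (-s)) •
    ((τ (g v) : Matrix.GeneralLinearGroup (Fin r) ℂ) : Matrix (Fin r) (Fin r) ℂ)))⁻¹

/-- EULT: the logarithm of the Euler factor of a representation of a finite group. -/
def ST_EULT : Prop :=
  ∀ (G : Type) [Group G] [Finite G] (r : ℕ) (τ : G →* Matrix.GeneralLinearGroup (Fin r) ℂ) (g : G)
    (Y : ℂ), ‖Y‖ < 1 →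
    ∃ l : ℂ, HasSum (fun n : ℕ => Matrix.trace ((τ (g ^ (n + 1)) :
        Matrix.GeneralLinearGroup (Fin r) ℂ) : Matrix (Fin r) (Fin r) ℂ) *
          Y ^ (n + 1) / ((n : ℂ) + 1)) l ∧
      (Matrix.det (1 - Y • ((τ g : Matrix.GeneralLinearGroup (Fin r) ℂ) :
        Matrix (Fin r) (Fin r) ℂ)))⁻¹ = Complex.exp l

/-- REL2: relations between class functions and `L`-functions. The Euler factor `ε i` has the
logarithm given by `θ i`. -/
def ST_REL2 : Prop :=
  ∀ (G : Type) [Group G] [Fintype G] (I : Type) (q : I → ℕ) (g : I → G) (d : ℕ)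
    (α : I → Fin d → ℂ) (w : ℝ) (r : ℕ) (θ : Fin r → G → ℂ) (ε : Fin r → G → ℂ → ℂ)
    (n : Fin r → ℤ) (Λ : Fin r → ℂ → ℂ),
    (∀ i x Y, ‖Y‖ < 1 → ∃ l : ℂ,
      HasSum (fun m : ℕ => θ i (x ^ (m + 1)) * Y ^ (m + 1) / ((m : ℂ) + 1)) l ∧
        (ε i x Y)⁻¹ = Complex.exp l) →
    (∀ v, 2 ≤ q v) → (∀ σ : ℝ, 1 < σ → Summable fun v => (q v : ℝ) ^ (-σ)) →
    (∀ v j, ‖α v j‖ ≤ (q v : ℝ) ^ (w / 2)) → (∀ i, MeromorphicOn (Λ i) Set.univ) →
    (∀ i (s : ℂ), w / 2 + 1 < s.re →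
      Λ i s = ∏' v, ∏ j : Fin d, (ε i (g v) (α v j * (q v : ℂ) ^ (-s)))⁻¹) →
    (∀ x : G, ∑ i, (n i : ℂ) * θ i x = 0) →
    (∀ i s, meromorphicOrderAt (Λ i) s ≠ ⊤) ∧
    (∀ s, ∑ i, n i * (meromorphicOrderAt (Λ i) s).untop₀ = 0) ∧
    ∀ s, (∀ i, AnalyticAt ℂ (Λ i) s ∧ Λ i s ≠ 0) → ∏ i, (Λ i s) ^ (n i) = 1

/-- TRG: the group theory for TRC. `c` is a complex conjugation, `C'` its normal closure, `ε` the
sign through which `C'` acts on a square root of `D`. -/
def ST_TRG : Prop :=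
  ∀ (G : Type) [Group G] [Finite G] (c : G) (A B : Subgroup G)
    (ε : Subgroup.normalClosure ({c} : Set G) →* ℤˣ), A ≤ B → c ^ 2 = 1 →
    (∀ g : G, g * c * g⁻¹ ∉ B) →
    (∀ x : Subgroup.normalClosure ({c} : Set G), (x : G) ∈ A → ε x = 1) →
    ¬ 4 ∣ A.relIndex (Subgroup.normalClosure ({c} : Set G)) →
    ∀ x : Subgroup.normalClosure ({c} : Set G), (x : G) ∈ B → ε x = 1

/-- TRC: if `F` is totally complex without CM subfield and `K ⊇ F` has a CM subfield then `K` has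
degree divisible by `4` over its maximal totally real subfield. -/
def ST_TRC : Prop :=
  ∀ (F K : Type) [Field F] [NumberField F] [Field K] [NumberField K] [Algebra F K],
    IsTotallyComplex F → (¬ ∃ D : maximalRealSubfield F, IsCMElt F D) →
    (∃ D : maximalRealSubfield K, IsCMElt K D) → 4 ∣ Module.finrank (maximalRealSubfield K) K

/-- DEL2: comparison of `Δ_K` and `Δ_F` (from DEL, TRC). -/
def ST_DEL2 : Prop :=
  ∀ (F K : Type) [Field F] [NumberField F] [Field K] [NumberField K] [Algebra F K] (δ δ' : ℂ),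
    IsTotallyComplex F → IsDelta F δ → IsDelta K δ' →
    ∃ a : ℚ, a ≠ 0 ∧ δ' = (a : ℂ) * δ ^ (Module.finrank F K)

end BKA
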