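import Pool.Agent.Helper64.BKA.Core
import Pool.Agent.Helper64.BKA.Stmts2

/-!
# Completed `L`-functions of a motive over a totally imaginary field, and of its twists over the
intermediate fields of a finite Galois extension: definitions
-/

set_option autoImplicit false

open NumberField
open scoped Classical

namespace BKA

/-- The local data of a pure motive `M₀` of rank `n` over the totally imaginary field `F` with
coefficients in `E`, such that `M = Res M₀` has no middle Hodge type, and of a finite Galois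
extension `L` of `F`. -/
structure Mot (F L E : Type) [Field F] [NumberField F] [Field L] [NumberField L] [Algebra F L]
    [Field E] (n : ℕ) where
  /-- the weight -/
  w : ℤ
  /-- the finite set of bad places -/
  S : Finset (Pl F)
  /-- the characteristic polynomials of the Frobenius elements -/
  P : Pl F → Polynomial E
  /-- their complex roots, for the embeddings `ι` of `E` -/
  α : (E →+* ℂ) → Pl F → Fin n → ℂ
  fac : ∀ ι, ∀ v ∉ S, (P v).map ι = ∏ j, (Polynomial.X - Polynomial.C (α ι v j))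
  pure : ∀ ι, ∀ v ∉ S, ∀ j, ‖α ι v j‖ = (q v : ℝ) ^ ((w : ℝ) / 2)
  /-- The Hodge numbers: `h ι p` is the dimension of the part of type `(p, w - p)` of the Hodge
  structure of `(M, ι)`, for `2 p < w`. -/
  h : (E →+* ℂ) → ℤ →₀ ℕ
  hodge : ∀ ι, (∀ p ∈ (h ι).support, 2 * p < w) ∧
    ((h ι).sum fun _ a => a) = n * (Module.finrank ℚ F / 2)
  /-- The bad places: `κ ι v k x` is the contribution of the elements `σ` with image `x` in the
  Galois group of `L / F` to the average, over the coset of the `(k + 1)`-st power of a Frobenius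
  element at `v` modulo inertia, of the trace of `σ` on the invariants under the inertia group
  over `L`. -/
  κ : (E →+* ℂ) → Pl F → ℕ → (L ≃ₐ[F] L) → ℂ
  /-- Frobenius elements in the Galois group -/
  g : Pl F → (L ≃ₐ[F] L)
  frob : ∀ v ∉ S, ∃ Q : Ideal (𝓞 L), Q.IsPrime ∧
    (∀ x : 𝓞 F, x ∈ v.asIdeal ↔ algebraMap (𝓞 F) (𝓞 L) x ∈ Q) ∧
    (∀ x y : 𝓞 L, (y : L) = g v (x : L) → y - x ^ q v ∈ Q) ∧
    ∀ σ : L ≃ₐ[F] L, (∀ x y : 𝓞 L, (y : L) = σ (x : L) → y - x ∈ Q) → σ = 1

section

variable {F L E E' : Type} [Field F] [NumberField F] [Field L] [NumberField L] [Algebra F L]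
  [Field E] [Field E'] [Algebra E E'] {n r : ℕ}

/-- `m` is critical. -/
def Mot.Crit (M : Mot F L E n) (m : ℤ) : Prop :=
  ∀ ι, ∀ p ∈ (M.h ι).support, p < m ∧ m ≤ M.w - p

/-- The factors of `L (M₀ ⊗ θ)` at infinity and at the places in `S`, where `θ` is the character of
a representation of dimension `r` of the Galois group of `L / F`: `Γ_ℂ`-factors for the Hodge
types, and Artin's formula for the Euler factors at bad places. -/
noncomputable def Mot.rest (M : Mot F L E n) (ι : E →+* ℂ) (θ : (L ≃ₐ[F] L) → ℂ) (r : ℕ)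
    (s : ℂ) : ℂ :=
  (∏ p ∈ (M.h ι).support, Complex.Gammaℂ (s - p) ^ M.h ι p) ^ r *
    Complex.exp (∑ v ∈ M.S, ∑ x : L ≃ₐ[F] L,
      θ x * ∑' k : ℕ, M.κ ι v k x * (q v : ℂ) ^ (-((k + 1 : ℂ) * s)) / (k + 1))

/-- the completed `L`-function of `M₀ ⊗ χ` over `K = L^H`, for the embedding `ι` of `E'` -/
noncomputable def Mot.LK (M : Mot F L E n) (H : Subgroup (L ≃ₐ[F] L)) (χ : Ch E' H)
    (ι : E' →+* ℂ) (s : ℂ) : ℂ :=
  M.rest (ι.comp (algebraMap E E')) (ind H (χ.map ι)) H.index s *
    LL (fun v : {v // v ∉ M.S} => q (v : Pl F)) (fun v => M.g v)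
      (fun v => M.α (ι.comp (algebraMap E E')) v) H (χ.map ι) s

/-- the completed `L`-function of `M₀ ⊗ τ` over `F`, for the embedding `ι` of `E` -/
noncomputable def Mot.LR (M : Mot F L E n)
    (τ : (L ≃ₐ[F] L) →* Matrix.GeneralLinearGroup (Fin r) E) (ι : E →+* ℂ) (s : ℂ) : ℂ :=
  M.rest ι (fun x => ι (Matrix.trace (τ x : Matrix (Fin r) (Fin r) E))) r s *
    LT (fun v : {v // v ∉ M.S} => q (v : Pl F)) (fun v => M.g v) (fun v => M.α ι v)
      ((Matrix.GeneralLinearGroup.map ι).comp τ) s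

end

/-- `Λ` is a meromorphic continuation to `ℂ` of the function `f` on a half plane, and holomorphic at
`m` and `m + 1`. -/
def Contn (f Λ : ℂ → ℂ) (m : ℤ) : Prop :=
  MeromorphicOn Λ Set.univ ∧ (∃ σ : ℝ, ∀ s : ℂ, σ < s.re → Λ s = f s) ∧
    AnalyticAt ℂ Λ m ∧ AnalyticAt ℂ Λ (m + 1)

/-- The formula for the ratio of the values at `m` and `m + 1` for a motive of rank `n` over `K`
with coefficients in `E`. -/
def Ratio (K E : Type) [Field K] [NumberField K] [Field E] (n : ℕ) (m : ℤ)
    (Λ : (E →+* ℂ) → ℂ → ℂ) : Prop :=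
  ∀ δ : ℂ, IsDelta K δ → ∃ e : E, e ≠ 0 ∧ ∀ ι : E →+* ℂ,
    Λ ι m / Λ ι (m + 1) = ι e * (Complex.I ^ (Module.finrank ℚ K / 2) * δ) ^ n

end BKA
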