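import Pool.Agent.Helper64.BKA.CoreU

/-!
# Completed `L`-functions of motives over totally imaginary fields, given by their traces:
definitions
-/

set_option autoImplicit false

open NumberField
open scoped Classical

namespace BKA

/-- The local data of a motive of rank `n` and weight `w` over the totally imaginary field `K` with
coefficients in `E`, such that its restriction of scalars has no middle Hodge type. -/
structure MotT (K E : Type) [Field K] [NumberField K] [Field E] (n : ℕ) (w : ℤ) where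
  /-- `κ v k` is the trace of the `(k + 1)`-st power of a Frobenius element at `v` on the
  invariants under the inertia group. -/
  κ : Pl K → ℕ → E
  bound : ∀ ι : E →+* ℂ, ∃ C A : ℝ, ∀ v k, ‖ι (κ v k)‖ ≤ C * (q v : ℝ) ^ (A * ((k : ℝ) + 1))
  /-- The Hodge numbers: `h ι p` is the dimension of the part of type `(p, w - p)`, `2 p < w`. -/
  h : (E →+* ℂ) → ℤ →₀ ℕ
  hodge : ∀ ι, (∀ p ∈ (h ι).support, 2 * p < w) ∧
    ((h ι).sum fun _ a => a) = n * (Module.finrank ℚ K / 2)

/-- the logarithm of the Euler product with traces `κ` -/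
noncomputable def logL {K : Type} [Field K] [NumberField K] (κ : Pl K → ℕ → ℂ) (s : ℂ) : ℂ :=
  ∑' x : Pl K × ℕ, κ x.1 x.2 * (q x.1 : ℂ) ^ (-((x.2 + 1 : ℂ) * s)) / (x.2 + 1)

/-- The completed `L`-function, for the embedding `ι` of `E`: the Euler factor at `v` is `exp` of the
sum of `κ v k q_v^(-(k + 1) s) / (k + 1)` (Artin's formula). -/
noncomputable def MotT.L {K E : Type} [Field K] [NumberField K] [Field E] {n : ℕ} {w : ℤ}
    (M : MotT K E n w) (ι : E →+* ℂ) (s : ℂ) : ℂ :=
  (∏ p ∈ (M.h ι).support, Complex.Gammaℂ (s - p) ^ M.h ι p) *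
    Complex.exp (logL (fun v k => ι (M.κ v k)) s)

/-- `m` is critical. -/
def MotT.Crit {K E : Type} [Field K] [NumberField K] [Field E] {n : ℕ} {w : ℤ}
    (M : MotT K E n w) (m : ℤ) : Prop :=
  ∀ ι, ∀ p ∈ (M.h ι).support, p < m ∧ m ≤ w - p

/-- The traces at the place `v` of `F` of the motive induced from the extension `K` of `F`: sum over
the places `w` of `K` over `v` whose residue degree `f` divides `k + 1` of `f κ w ((k + 1) / f)`. -/
noncomputable def indT {F K R : Type} [Field F] [NumberField F] [Field K] [NumberField K]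
    [Algebra F K] [Field R] (κ : Pl K → ℕ → R) (v : Pl F) (k : ℕ) : R :=
  ∑ᶠ w : {w : Pl K // w.asIdeal.comap (algebraMap (𝓞 F) (𝓞 K)) = v.asIdeal},
    if v.asIdeal.inertiaDeg' (w : Pl K).asIdeal ∣ k + 1 then
      (v.asIdeal.inertiaDeg' (w : Pl K).asIdeal : R) *
        κ w ((k + 1) / v.asIdeal.inertiaDeg' (w : Pl K).asIdeal - 1)
    else 0

/-- GRP: the `L`-function of an induced motive. -/
def ST_GRP : Prop :=
  ∀ (F K : Type) [Field F] [NumberField F] [Field K] [NumberField K] [Algebra F K]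
    (κ : Pl K → ℕ → ℂ) (C A : ℝ),
    (∀ v k, ‖κ v k‖ ≤ C * (q v : ℝ) ^ (A * ((k : ℝ) + 1))) →
    ∀ s : ℂ, |A| + 2 < s.re →
      (Summable fun x : Pl K × ℕ => κ x.1 x.2 * (q x.1 : ℂ) ^ (-((x.2 + 1 : ℂ) * s)) / (x.2 + 1)) ∧
      (Summable fun x : Pl F × ℕ =>
        indT (F := F) κ x.1 x.2 * (q x.1 : ℂ) ^ (-((x.2 + 1 : ℂ) * s)) / (x.2 + 1)) ∧
      logL κ s = logL (indT (F := F) κ) s

end BKA
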