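import Mathlib

/-!
# Artin formalism for Selmer groups and `L`-functions

`F` is a number field, `Gal F` its absolute Galois group, `N` an open normal subgroup of `Gal F`
(the Galois group over a finite Galois extension `L / F`) and `G = Gal F ⧸ N` the Galois group of
`L / F`. A subgroup `H` of `G` stands for its fixed field `K = L^H`.
-/

set_option autoImplicit false

open NumberField
open scoped Classical

namespace BKA

/-- the absolute Galois group of `F` -/
abbrev Gal (F : Type) [Field F] : Type := AlgebraicClosure F ≃ₐ[F] AlgebraicClosure F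

/-- the ring of all algebraic integers of the algebraic closure of `F` -/
abbrev Zb (F : Type) [Field F] : Type := integralClosure ℤ (AlgebraicClosure F)

/-- the finite places of `F` -/
abbrev Pl (F : Type) [Field F] [NumberField F] : Type :=
  IsDedekindDomain.HeightOneSpectrum (𝓞 F)

/-- the number of elements of the residue field -/
noncomputable def q {F : Type} [Field F] [NumberField F] (v : Pl F) : ℕ :=
  Ideal.absNorm v.asIdeal

/-- `𝔓` is a prime of the ring of all algebraic integers over the place `v` -/
def Over {F : Type} [Field F] [NumberField F] (v : Pl F) (𝔓 : Ideal (Zb F)) : Prop :=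
  𝔓.IsPrime ∧ ∀ (x : 𝓞 F) (y : Zb F),
    (y : AlgebraicClosure F) = algebraMap F (AlgebraicClosure F) x → (x ∈ v.asIdeal ↔ y ∈ 𝔓)

/-- `σ x ≡ x ^ m` modulo `𝔓` for all algebraic integers `x`: for `m = 1` the automorphism `σ` is in
the inertia group at `𝔓`, for `𝔓` over `v` and `m = q v` it is an (arithmetic) Frobenius element. -/
def Congr {F : Type} [Field F] (𝔓 : Ideal (Zb F)) (m : ℕ) (σ : Gal F) : Prop :=
  ∀ x y : Zb F, (y : AlgebraicClosure F) = σ (x : AlgebraicClosure F) → y - x ^ m ∈ 𝔓

/-! ## Induced characters and Euler factors -/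

/-- the value at `y` of the character `χ` of the subgroup `H`, extended by `0` -/
noncomputable def ext {G R : Type} [Group G] [Field R] (H : Subgroup G) (χ : H →* Rˣ) (y : G) : R :=
  if h : y ∈ H then ((χ ⟨y, h⟩ : Rˣ) : R) else 0

/-- the character of `G` induced by the character `χ` of the subgroup `H` -/
noncomputable def ind {G R : Type} [Group G] [Fintype G] [Field R] (H : Subgroup G)
    (χ : H →* Rˣ) (g : G) : R :=
  (Nat.card H : R)⁻¹ * ∑ x : G, ext H χ (x⁻¹ * g * x)

/-- The Euler factor (in `Y`) at an unramified place `v` of `F` with Frobenius element `g` of the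
character `χ` of the Galois group over `K = L^H`, for an unramified representation of dimension one.
The places of `K` over `v` are the orbits `o` of `g` on `G ⧸ H`, the residue degree is the length
`f` of the orbit and the Frobenius element is `x⁻¹ g ^ f x`, for `x` in `o`. -/
noncomputable def euler {G : Type} [Group G] [Fintype G] (H : Subgroup G) (χ : H →* ℂˣ) (g : G)
    (Y : ℂ) : ℂ :=
  ∏ o : MulAction.orbitRel.Quotient (Subgroup.zpowers g) (G ⧸ H),
    (1 - ext H χ (o.out.out⁻¹ * g ^ Function.minimalPeriod (fun x : G ⧸ H => g • x) o.out *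
      o.out.out) * Y ^ Function.minimalPeriod (fun x : G ⧸ H => g • x) o.out)

/-- The Euler product, outside a set of places: `I` is the set of the remaining places `v` of `F`,
`q v` the norm, `g v` the Frobenius element in `G` and `α v j` the eigenvalues of the Frobenius
element on the representation `V`. This is the `L`-function of `V ⊗ χ` over `K = L^H`. -/
noncomputable def LL {G : Type} [Group G] [Fintype G] {I : Type} {d : ℕ} (q : I → ℕ) (g : I → G)
    (α : I → Fin d → ℂ) (H : Subgroup G) (χ : H →* ℂˣ) (s : ℂ) : ℂ :=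
  ∏' v : I, ∏ j : Fin d, (euler H χ (g v) (α v j * (q v : ℂ) ^ (-s)))⁻¹

/-! ## Selmer groups -/

/-- Local conditions for Selmer groups of twists of `ρ`. The index `i` stands for a place of `F`;
`D i` is the inertia group of a prime over it and `W i = V` for the unramified condition, `D i` is
the decomposition group and `W i = V ⊗ B_cris` for the crystalline condition at a place over `p`. -/
structure Local {k Γ : Type} [Field k] [Group Γ] {d : ℕ}
    (ρ : Γ →* Matrix.GeneralLinearGroup (Fin d) k) where
  /-- the places -/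
  I : Type
  /-- the inertia or decomposition group -/
  D : I → Subgroup Γ
  /-- a representation of `D i` -/
  W : I → Type
  [inst1 : ∀ i, AddCommGroup (W i)]
  [inst2 : ∀ i, Module k (W i)]
  act : ∀ i, D i →* (W i →ₗ[k] W i)
  /-- the map from `V` to `W i` -/
  j : ∀ i, (Fin d → k) →ₗ[k] W i
  equiv : ∀ i (g : D i) (v : Fin d → k),
    j i (((ρ g : Matrix.GeneralLinearGroup (Fin d) k) : Matrix (Fin d) (Fin d) k).mulVec v) =
      act i g (j i v)

attribute [instance] Local.inst1 Local.inst2

/-- the action of `g` on `V` -/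
noncomputable def vec {k Γ : Type} [Field k] [Group Γ] {d : ℕ}
    (ρ : Γ →* Matrix.GeneralLinearGroup (Fin d) k) (g : Γ) (v : Fin d → k) : Fin d → k :=
  ((ρ g : Matrix.GeneralLinearGroup (Fin d) k) : Matrix (Fin d) (Fin d) k).mulVec v

/-- The local condition for the cocycle `c` of `U` with values in `V ⊗ χ` at the conjugate by `γ` of
the group `D`: the restriction of `c` (to the intersection with `U`) becomes a coboundary in
`W ⊗ χ`. -/
abbrev LocC {k Γ W : Type} [Field k] [Group Γ] [AddCommGroup W] [Module k W] {d : ℕ}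
    (ρ : Γ →* Matrix.GeneralLinearGroup (Fin d) k) (U : Subgroup Γ) (χ : U →* kˣ)
    (c : U → Fin d → k) (D : Subgroup Γ) (act : D →* (W →ₗ[k] W)) (j : (Fin d → k) →ₗ[k] W)
    (γ : Γ) : Prop :=
  ∃ y : W, ∀ (g : D) (h : γ * g * γ⁻¹ ∈ U),
    j (vec ρ γ⁻¹ (c ⟨γ * g * γ⁻¹, h⟩)) = ((χ ⟨γ * g * γ⁻¹, h⟩ : kˣ) : k) • act g y - y

section Selmer

variable {k Γ : Type} [Field k] [TopologicalSpace k] [Group Γ] [TopologicalSpace Γ] {d : ℕ}

/-- `c` is a continuous cocycle on the subgroup `U` with values in `V ⊗ χ` which satisfies the local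
conditions at all places of the fixed field of `U`, i.e. at all conjugates of the groups `D i`: its
restriction (to the intersection with `U`) becomes a coboundary in `W i ⊗ χ`. -/
def IsSel (ρ : Γ →* Matrix.GeneralLinearGroup (Fin d) k) (C : Local ρ) (U : Subgroup Γ)
    (χ : U →* kˣ) (c : U → Fin d → k) : Prop :=
  Continuous c ∧ (∀ g h : U, c (g * h) = c g + ((χ g : kˣ) : k) • vec ρ g (c h)) ∧
  ∀ (i : C.I) (γ : Γ), LocC ρ U χ c (C.D i) (C.act i) (C.j i) γ

/-- `c` is a coboundary. -/
def IsCob (ρ : Γ →* Matrix.GeneralLinearGroup (Fin d) k) (U : Subgroup Γ)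
    (χ : U →* kˣ) (c : U → Fin d → k) : Prop :=
  ∃ v : Fin d → k, ∀ g : U, c g = ((χ g : kˣ) : k) • vec ρ g v - v

/-- The Selmer group of `V ⊗ χ` over the fixed field of `U` has dimension `n`: there are `n`
cocycles which form a basis modulo coboundaries. -/
def SelDim (ρ : Γ →* Matrix.GeneralLinearGroup (Fin d) k) (C : Local ρ) (U : Subgroup Γ)
    (χ : U →* kˣ) (n : ℕ) : Prop :=
  ∃ b : Fin n → U → Fin d → k, (∀ i, IsSel ρ C U χ (b i)) ∧
    ∀ c, IsSel ρ C U χ c → ∃! a : Fin n → k, IsCob ρ U χ (fun g => c g - ∑ i, a i • b i g)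

/-- The Selmer group of `V ⊗ χ` over `K = L^H` has dimension `n`. -/
def SelDimG (ρ : Γ →* Matrix.GeneralLinearGroup (Fin d) k) (C : Local ρ) (N : Subgroup Γ)
    [N.Normal] (H : Subgroup (Γ ⧸ N)) (χ : H →* kˣ) (n : ℕ) : Prop :=
  SelDim ρ C (H.comap (QuotientGroup.mk' N)) (χ.comp ((QuotientGroup.mk' N).subgroupComap H)) n

end Selmer

end BKA
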