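import Pool.Agent.Helper64.BKA.Art

/-!
# Finite dimension of the Selmer groups over intermediate fields
-/

set_option autoImplicit false

open NumberField
open scoped Classical

namespace BKA

section

variable {k Γ : Type} [Field k] [TopologicalSpace k] [IsTopologicalRing k] [Group Γ]
  [TopologicalSpace Γ] [IsTopologicalGroup Γ] {d : ℕ}

/-- If the Selmer group over the big field has finite dimension, the Selmer groups over the
intermediate fields have finite dimension. -/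
theorem selDimG_exists [CharZero k] (sres : ST_SRES)
    (ρ : Γ →* Matrix.GeneralLinearGroup (Fin d) k) (C : Local ρ) (N : Subgroup Γ) [N.Normal]
    [Fintype (Γ ⧸ N)] (hρ : Continuous ρ) (hN : IsOpen (N : Set Γ)) (s₀ : ℕ)
    (h0 : SelDimG ρ C N ⊥ 1 s₀) (H : Subgroup (Γ ⧸ N)) (χ : H →* kˣ) :
    ∃ s, SelDimG ρ C N H χ s := by
  obtain ⟨r0, hr0, hspan0⟩ := Sel.basis_eig sres ρ C N hρ hN ⊥ 1 s₀ h0
  have htop : Sel.eig (Sel.tau ρ C N) ⊥ (1 : (⊥ : Subgroup (Γ ⧸ N)) →* kˣ) = ⊤ := by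
    rw [eq_top_iff]
    intro x _ h
    have : h = 1 := Subsingleton.elim _ _
    rw [this]
    simp
  have hfd : FiniteDimensional k (Sel.XX ρ C N) := by
    refine ⟨⟨(Set.finite_range r0).toFinset, ?_⟩⟩
    rw [Set.Finite.coe_toFinset, hspan0, htop]
  set U : Subgroup Γ := H.comap (QuotientGroup.mk' N) with hU
  set χU : U →* kˣ := χ.comp ((QuotientGroup.mk' N).subgroupComap H) with hχU
  have hNU : N ≤ U := by
    intro n hn
    rw [hU, Subgroup.mem_comap]
    have : (QuotientGroup.mk' N) n = 1 := (QuotientGroup.eq_one_iff n).2 hn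
    rw [this]
    exact H.one_mem
  have hχN : ∀ n : U, (n : Γ) ∈ N → χU n = 1 := by
    intro n hn
    have e : (QuotientGroup.mk' N).subgroupComap H n = 1 := by
      apply Subtype.ext
      show (QuotientGroup.mk' N) (n : Γ) = 1
      exact (QuotientGroup.eq_one_iff (n : Γ)).2 hn
    rw [hχU, MonoidHom.comp_apply, e, map_one]
  obtain ⟨hres, hsurj⟩ := sres k Γ d ρ C N U hNU χU hρ hN hχN
  have hfree : Module.Free k (Sel.eig (Sel.tau ρ C N) H χ) := 
    Module.Free.of_divisionRing k (Sel.eig (Sel.tau ρ C N) H χ)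
  have hfin : Module.Finite k (Sel.eig (Sel.tau ρ C N) H χ) :=
    FiniteDimensional.finiteDimensional_submodule _
  let b := Module.finBasis k (Sel.eig (Sel.tau ρ C N) H χ)
  set s := Module.finrank k (Sel.eig (Sel.tau ρ C N) H χ) with hs
  -- lifts of the basis
  have hlift : ∀ j : Fin s, ∃ c' : U → Fin d → k, ∃ h : IsSel ρ C U χU c',
      Sel.clsL ρ C N ⟨fun n : N => c' ⟨n, hNU n.2⟩, (hres c' h).1⟩ = (b j : Sel.XX ρ C N) := by
    intro j
    obtain ⟨z, hz⟩ := Sel.clsL_surj ρ C N (b j : Sel.XX ρ C N)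
    obtain ⟨c, hc⟩ := z
    have hx : (Sel.clsL ρ C N ⟨c, hc⟩) ∈ Sel.eig (Sel.tau ρ C N) H χ := by
      rw [hz]
      exact (b j).2
    have hcob : ∀ u : U, IsCob ρ N 1 (fun n => vec ρ u (c ⟨(u : Γ)⁻¹ * n * u, by
        have := ‹N.Normal›.conj_mem n n.2 (u : Γ)⁻¹
        simpa using this⟩) - ((χU u : kˣ) : k)⁻¹ • c n) := by
      intro u
      have h1 := hx ⟨(QuotientGroup.mk (u : Γ) : Γ ⧸ N), u.2⟩
      change Sel.tau ρ C N (QuotientGroup.mk (u : Γ) : Γ ⧸ N) _ = _ at h1
      rw [Sel.tau_mk, Sel.tX_apply, ← sub_eq_zero, ← map_smul, ← map_sub, Sel.clsL_eq_zero] at h1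
      exact h1
    obtain ⟨c', hc', hcc⟩ := hsurj c hc hcob
    refine ⟨c', hc', ?_⟩
    rw [← hz, ← sub_eq_zero, ← map_sub, Sel.clsL_eq_zero]
    exact hcc
  choose c' hc' hcl using hlift
  refine ⟨s, c', hc', fun c hc => ?_⟩
  change IsSel ρ C U χU c at hc
  -- the class of the restriction
  have hmem : Sel.clsL ρ C N ⟨fun n : N => c ⟨n, hNU n.2⟩, (hres c hc).1⟩ ∈
      Sel.eig (Sel.tau ρ C N) H χ := by
    rintro ⟨h, hh⟩
    obtain ⟨u, rfl⟩ := QuotientGroup.mk_surjective h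
    have hu : u ∈ U := by
      rw [hU, Subgroup.mem_comap]
      exact hh
    show Sel.tau ρ C N (QuotientGroup.mk u : Γ ⧸ N) _ = _
    rw [Sel.tau_mk, Sel.tX_apply, ← sub_eq_zero, ← map_smul, ← map_sub, Sel.clsL_eq_zero]
    exact (hres c hc).2.2 ⟨u, hu⟩
  have hiff : ∀ a : Fin s → k, IsCob ρ U χU (fun g => c g - ∑ i, a i • c' i g) ↔
      Sel.clsL ρ C N ⟨fun n : N => c ⟨n, hNU n.2⟩, (hres c hc).1⟩ =
        ∑ i, a i • (b i : Sel.XX ρ C N) := by
    intro a
    have hsel : (c - ∑ j, a j • c' j) ∈ Sel.selM ρ C U χU :=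
      (Sel.selM ρ C U χU).sub_mem hc
        (Submodule.sum_mem _ (fun j _ => Submodule.smul_mem _ _ (hc' j)))
    have e0 : (fun g => c g - ∑ i, a i • c' i g) = (c - ∑ j, a j • c' j) := by
      funext g
      simp only [Pi.sub_apply, Finset.sum_apply, Pi.smul_apply]
    have e1 : Sel.clsL ρ C N ⟨fun n : N => c ⟨n, hNU n.2⟩, (hres c hc).1⟩ -
        ∑ i, a i • (b i : Sel.XX ρ C N) =
        Sel.clsL ρ C N ⟨fun n : N => (c - ∑ j, a j • c' j : U → Fin d → k) ⟨n, hNU n.2⟩,
          (hres _ hsel).1⟩ := by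
      simp only [← hcl]
      simp only [← map_smul, ← map_sum, ← map_sub]
      congr 1
      apply Subtype.ext
      funext n
      rw [Submodule.coe_sub, Submodule.coe_sum]
      simp only [Finset.sum_apply, Pi.smul_apply, SetLike.val_smul, Pi.sub_apply]
    rw [e0, ← sub_eq_zero, e1, Sel.clsL_eq_zero]
    constructor
    · rintro ⟨v, hv⟩
      refine ⟨v, fun n => ?_⟩
      have := hv ⟨n, hNU n.2⟩
      rw [hχN ⟨n, hNU n.2⟩ n.2] at this
      simpa using this
    · intro h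
      exact (hres _ hsel).2.1 h
  let x : Sel.eig (Sel.tau ρ C N) H χ := ⟨_, hmem⟩
  have hval : ∀ a : Fin s → k, ((∑ i, a i • b i : Sel.eig (Sel.tau ρ C N) H χ) : Sel.XX ρ C N) =
      ∑ i, a i • (b i : Sel.XX ρ C N) := by
    intro a
    rw [Submodule.coe_sum]
    rfl
  refine ⟨fun i => b.repr x i, ?_, ?_⟩
  · refine (hiff _).2 ?_
    rw [← hval, b.sum_repr]
  · intro a ha
    have ha' := (hiff a).1 ha
    rw [← hval] at ha'
    have h1 : x = ∑ i, a i • b i := Subtype.ext ha'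
    funext i
    rw [h1, b.repr_sum_self]

end

variable {F E k : Type} [Field F] [NumberField F] [Field E] [Field k]
    [TopologicalSpace k] {V : Repr F E k}

/-- If the Selmer group over `L` has finite dimension, the Selmer groups over the intermediate
fields have finite dimension. -/
theorem sel_exists [CharZero k] [IsTopologicalRing k] (C : Local V.ρ) (L : Ext V) (s₀ : ℕ)
    (h0 : L.Sel C ⊥ Ch.triv s₀) (H : Subgroup L.G) (χ : Ch E H) : ∃ s, L.Sel C H χ s := by
  have := L.normal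
  let hF : Fintype (Gal F ⧸ L.N) := Ext.instF L
  refine selDimG_exists st_SRES V.ρ C L.N V.cont L.isOpen s₀ ?_ H (χ.map V.emb)
  have h1 : (Ch.triv : Ch E (⊥ : Subgroup L.G)).map V.emb = 1 := MonoidHom.comp_one _
  unfold Ext.Sel at h0
  rw [h1] at h0
  exact h0

end BKA
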