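import Pool.Agent.Helper64.BKA.CoreU
import Pool.Agent.Helper64.BKA.Stmts3
import Pool.Agent.Helper64.BKA.Art
import Pool.Agent.Helper76.BKA.DSC
import Pool.Agent.Helper76.BKA.SUM
import Pool.Agent.Helper15.BKA.EUL
import Pool.Agent.Helper19.BKA.EULT
import Pool.Agent.Helper19.BKA.HP
import Pool.Agent.Helper19.BKA.CONT
import Pool.Agent.Helper19.BKA.DEL2
import Pool.Agent.Helper18.BKA.DEL
import Pool.Agent.Helper18.BKA.TRC
import Pool.Agent.Helper88.BKA.TRG

/-!
# U1: descent of the formula for ratios of successive critical values along Brauer relations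
-/

set_option autoImplicit false

open NumberField
open scoped Classical

namespace BKA

theorem zpow_sum' {A : ℂ} (hA : A ≠ 0) {ι : Type} (T : Finset ι) (f : ι → ℤ) :
    ∏ i ∈ T, A ^ (f i) = A ^ (∑ i ∈ T, f i) := by
  induction T using Finset.induction_on with
  | empty => simp
  | insert a T ha ih => rw [Finset.prod_insert ha, Finset.sum_insert ha, ih, zpow_add₀ hA]

theorem gammaC_ne_zero {s : ℂ} (hs : 0 < s.re) : Complex.Gammaℂ s ≠ 0 := by
  rw [Complex.Gammaℂ_def]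
  refine mul_ne_zero (mul_ne_zero two_ne_zero ?_) (Complex.Gamma_ne_zero_of_re_pos hs)
  rw [Ne, Complex.cpow_eq_zero_iff]
  rintro ⟨h, -⟩
  have h1 : (2 : ℂ) * (Real.pi : ℂ) ≠ 0 :=
    mul_ne_zero two_ne_zero (by exact_mod_cast Real.pi_ne_zero)
  exact h1 h

section rel

variable {F L E : Type} [Field F] [NumberField F] [Field L] [NumberField L] [Algebra F L]
  [Field E] {n : ℕ}

/-- the factors at infinity and at the bad places are multiplicative -/
theorem rest_rel (M : Mot F L E n) (ι : E →+* ℂ) {N : ℕ} (θ : Fin N → (L ≃ₐ[F] L) → ℂ)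
    (d : Fin N → ℕ) (c : Fin N → ℤ) (s : ℂ) (hs : (M.w : ℝ) / 2 < s.re)
    (h1 : ∀ x, ∑ i, (c i : ℂ) * θ i x = 0) (h2 : ∑ i, c i * (d i : ℤ) = 0) :
    (∀ i, M.rest ι (θ i) (d i) s ≠ 0) ∧ ∏ i, (M.rest ι (θ i) (d i) s) ^ (c i) = 1 := by
  set A : ℂ := ∏ p ∈ (M.h ι).support, Complex.Gammaℂ (s - p) ^ M.h ι p with hA
  have hA0 : A ≠ 0 := by
    rw [hA, Finset.prod_ne_zero_iff]
    intro p hp
    apply pow_ne_zero
    apply gammaC_ne_zero
    have h3 := (M.hodge ι).1 p hp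
    have h4 : (2 * p : ℝ) < M.w := by exact_mod_cast h3
    simp only [Complex.sub_re, Complex.intCast_re]
    linarith
  set b : Pl F → (L ≃ₐ[F] L) → ℂ := fun v x =>
    ∑' k : ℕ, M.κ ι v k x * (q v : ℂ) ^ (-((k + 1 : ℂ) * s)) / (k + 1) with hb
  have hr : ∀ i, M.rest ι (θ i) (d i) s =
      A ^ (d i) * Complex.exp (∑ v ∈ M.S, ∑ x, θ i x * b v x) := fun i => rfl
  refine ⟨fun i => ?_, ?_⟩
  · rw [hr]
    exact mul_ne_zero (pow_ne_zero _ hA0) (Complex.exp_ne_zero _)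
  · have h3 : ∀ i, (M.rest ι (θ i) (d i) s) ^ (c i) =
        A ^ (c i * (d i : ℤ)) * Complex.exp ((c i : ℂ) * ∑ v ∈ M.S, ∑ x, θ i x * b v x) := by
      intro i
      rw [hr, mul_zpow, ← Complex.exp_int_mul]
      congr 1
      rw [mul_comm (c i), zpow_mul, zpow_natCast]
    rw [Finset.prod_congr rfl fun i _ => h3 i, Finset.prod_mul_distrib, ← Complex.exp_sum]
    have h4 : ∏ i, A ^ (c i * (d i : ℤ)) = 1 := by
      rw [zpow_sum' hA0, h2, zpow_zero]
    have h5 : ∑ i, (c i : ℂ) * ∑ v ∈ M.S, ∑ x, θ i x * b v x = 0 := by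
      have h6 : ∀ i, (c i : ℂ) * ∑ v ∈ M.S, ∑ x, θ i x * b v x =
          ∑ v ∈ M.S, ∑ x, ((c i : ℂ) * θ i x) * b v x := by
        intro i
        rw [Finset.mul_sum]
        refine Finset.sum_congr rfl fun v _ => ?_
        rw [Finset.mul_sum]
        refine Finset.sum_congr rfl fun x _ => ?_
        ring
      rw [Finset.sum_congr rfl fun i _ => h6 i, Finset.sum_comm]
      refine Finset.sum_eq_zero fun v _ => ?_
      rw [Finset.sum_comm]
      refine Finset.sum_eq_zero fun x _ => ?_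
      rw [← Finset.sum_mul, h1 x, zero_mul]
    rw [h4, h5, Complex.exp_zero, one_mul]

end rel

/-- existence of `Δ_K` -/
theorem exists_delta (K : Type) [Field K] [NumberField K] : ∃ δ : ℂ, IsDelta K δ := by
  by_cases h : ∃ D : maximalRealSubfield K, IsCMElt K D
  · obtain ⟨D, hD⟩ := h
    obtain ⟨y, hy⟩ := IsAlgClosed.exists_pow_nat_eq ((Algebra.norm ℚ D : ℚ) : ℂ) (n := 2) two_pos
    exact ⟨_, Or.inl ⟨D, hD, y, hy, rfl⟩⟩
  · exact ⟨1, Or.inr ⟨h, rfl⟩⟩

theorem delta_ne_zero {K : Type} [Field K] [NumberField K] {δ : ℂ} (h : IsDelta K δ) : δ ≠ 0 := by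
  obtain ⟨a, ha, h1⟩ := delta_sq h
  rintro rfl
  apply ha
  have : (0 : ℂ) = (a : ℂ) := by rw [← h1]; simp
  exact_mod_cast this.symm

section main

variable {F L E E' : Type} [Field F] [NumberField F] [Field L] [NumberField L] [Algebra F L]
  [Field E] [Field E'] [Algebra E E'] {n r : ℕ}

/-- the degree of the induced character -/
theorem ind_one {G R : Type} [Group G] [Fintype G] [Field R] [CharZero R] (H : Subgroup G)
    (χ : H →* Rˣ) : ind H χ 1 = (H.index : R) := by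
  unfold ind
  have h1 : ∀ x : G, ext H χ (x⁻¹ * 1 * x) = 1 := by
    intro x
    have h2 : x⁻¹ * 1 * x = 1 := by group
    rw [h2]
    unfold ext
    rw [dif_pos H.one_mem]
    have h3 : χ ⟨1, H.one_mem⟩ = 1 := map_one χ
    rw [h3, Units.val_one]
  rw [Finset.sum_congr rfl fun x _ => h1 x, Finset.sum_const, Finset.card_univ, nsmul_eq_mul,
    mul_one]
  have h3 : (Nat.card H : R) ≠ 0 := Nat.cast_ne_zero.2 Nat.card_pos.ne'
  have h4 : Fintype.card G = Nat.card H * H.index := by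
    rw [Subgroup.card_mul_index, Nat.card_eq_fintype_card]
  rw [h4, Nat.cast_mul]
  field_simp

/-- the relation between the completed `L`-functions and its consequence at a point where all of
them are holomorphic and the ones over the intermediate fields do not vanish -/
theorem values (M : Mot F L E n) (τ : (L ≃ₐ[F] L) →* Matrix.GeneralLinearGroup (Fin r) E)
    {N : ℕ} (H : Fin N → Subgroup (L ≃ₐ[F] L)) (χ : ∀ i, Ch E' (H i)) (c : Fin N → ℤ)
    (hc : ∀ x, algebraMap E E' (Matrix.trace (τ x : Matrix (Fin r) (Fin r) E)) =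
      ∑ i, (c i : E') * ind (H i) (χ i).hom x)
    (ι : E' →+* ℂ) (Λ₀ : ℂ → ℂ) (Λ : Fin N → ℂ → ℂ)
    (h0 : MeromorphicOn Λ₀ Set.univ) (hm : ∀ i, MeromorphicOn (Λ i) Set.univ)
    (h0' : ∃ σ : ℝ, ∀ s : ℂ, σ < s.re → Λ₀ s = M.LR τ (ι.comp (algebraMap E E')) s)
    (hm' : ∀ i, ∃ σ : ℝ, ∀ s : ℂ, σ < s.re → Λ i s = M.LK (H i) (χ i) ι s)
    (s : ℂ) (ha0 : AnalyticAt ℂ Λ₀ s) (ha : ∀ i, AnalyticAt ℂ (Λ i) s ∧ Λ i s ≠ 0) :
    Λ₀ s = ∏ i, (Λ i s) ^ (c i) := by
  have hcE : CharZero E' := ι.charZero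
  set ι₀ := ι.comp (algebraMap E E') with hι₀
  -- the families
  let θ : Fin (N + 1) → (L ≃ₐ[F] L) → ℂ :=
    Fin.cons (fun x => ι₀ (Matrix.trace (τ x : Matrix (Fin r) (Fin r) E)))
      (fun i => ind (H i) ((χ i).map ι))
  let ε : Fin (N + 1) → (L ≃ₐ[F] L) → ℂ → ℂ :=
    Fin.cons (fun x Y => Matrix.det (1 - Y • ((((Matrix.GeneralLinearGroup.map ι₀).comp τ) x :
      Matrix.GeneralLinearGroup (Fin r) ℂ) : Matrix (Fin r) (Fin r) ℂ)))
      (fun i x Y => euler (H i) ((χ i).map ι) x Y)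
  let d : Fin (N + 1) → ℕ := Fin.cons r (fun i => (H i).index)
  let cc : Fin (N + 1) → ℤ := Fin.cons (-1) c
  let ΛΛ : Fin (N + 1) → ℂ → ℂ := Fin.cons Λ₀ Λ
  have hrel : ∀ x, ∑ i, (cc i : ℂ) * θ i x = 0 := by
    intro x
    rw [Fin.sum_univ_succ]
    have h1 : ∀ i : Fin N, (cc i.succ : ℂ) * θ i.succ x = (c i : ℂ) * ind (H i) ((χ i).map ι) x :=
      fun i => rfl
    rw [Finset.sum_congr rfl fun i _ => h1 i]
    have h2 := congrArg ι (hc x)
    rw [map_sum] at h2
    have h3 : ∀ i : Fin N, ι ((c i : E') * ind (H i) (χ i).hom x) =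
        (c i : ℂ) * ind (H i) ((χ i).map ι) x := by
      intro i
      rw [ind_map, map_mul, map_intCast]
    rw [Finset.sum_congr rfl fun i _ => h3 i] at h2
    rw [← h2]
    show ((-1 : ℤ) : ℂ) * ι₀ (Matrix.trace (τ x : Matrix (Fin r) (Fin r) E)) +
      ι (algebraMap E E' (Matrix.trace (τ x : Matrix (Fin r) (Fin r) E))) = 0
    rw [hι₀, RingHom.comp_apply]
    push_cast
    ring
  have hdeg : ∑ i, cc i * (d i : ℤ) = 0 := by
    have h1 := hrel 1
    have h2 : ∀ i, (cc i : ℂ) * θ i 1 = ((cc i * (d i : ℤ) : ℤ) : ℂ) := by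
      intro i
      refine Fin.cases ?_ (fun i => ?_) i
      · show ((-1 : ℤ) : ℂ) * ι₀ (Matrix.trace ((τ 1 : Matrix.GeneralLinearGroup (Fin r) E) :
          Matrix (Fin r) (Fin r) E)) = ((-1 * (r : ℤ) : ℤ) : ℂ)
        rw [map_one, Units.val_one, Matrix.trace_one, Fintype.card_fin, map_natCast]
        push_cast
        ring
      · show (c i : ℂ) * ind (H i) ((χ i).map ι) 1 = ((c i * ((H i).index : ℤ) : ℤ) : ℂ)
        rw [ind_one]
        push_cast
        ring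
    rw [Finset.sum_congr rfl fun i _ => h2 i, ← Int.cast_sum] at h1
    exact_mod_cast h1
  have hq := (st_SUM F).1
  have hsum := (st_SUM F).2
  have hε : ∀ i x Y, ‖Y‖ < 1 → ∃ l : ℂ,
      HasSum (fun m : ℕ => θ i (x ^ (m + 1)) * Y ^ (m + 1) / ((m : ℂ) + 1)) l ∧
        (ε i x Y)⁻¹ = Complex.exp l := by
    intro i
    refine Fin.cases ?_ (fun i => ?_) i
    · intro x Y hY
      obtain ⟨l, h1, h2⟩ := st_EULT (L ≃ₐ[F] L) r ((Matrix.GeneralLinearGroup.map ι₀).comp τ) x Y hY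
      refine ⟨l, ?_, h2⟩
      convert h1 using 2
      rename_i m
      congr 2
      show ι₀ (Matrix.trace (τ (x ^ (m + 1)) : Matrix (Fin r) (Fin r) E)) = _
      rw [Matrix.trace, Matrix.trace, map_sum]
      rfl
    · intro x Y hY
      exact st_EUL (L ≃ₐ[F] L) (H i) ((χ i).map ι) x Y hY
  -- the half plane
  obtain ⟨σ₁, hσ₁⟩ := h0'
  choose σ₂ hσ₂ using hm'
  obtain ⟨σ₃, hσ₃⟩ : ∃ σ₃ : ℝ, ∀ i, σ₂ i ≤ σ₃ := by
    refine ⟨∑ i, |σ₂ i|, fun i => (le_abs_self _).trans ?_⟩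
    exact Finset.single_le_sum (f := fun i => |σ₂ i|) (fun i _ => abs_nonneg _) (Finset.mem_univ i)
  have key := st_CON (N + 1) cc ΛΛ (max (max σ₁ σ₃) ((M.w : ℝ) / 2 + 1)) (by
      intro i
      refine Fin.cases ?_ (fun i => ?_) i
      · exact h0
      · exact hm i) (by
      intro z hz
      have hz1 : σ₁ < z.re := lt_of_le_of_lt ((le_max_left _ _).trans (le_max_left _ _)) hz
      have hz3 : σ₃ < z.re := lt_of_le_of_lt ((le_max_right _ _).trans (le_max_left _ _)) hz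
      have hzw : (M.w : ℝ) / 2 + 1 < z.re := lt_of_le_of_lt (le_max_right _ _) hz
      have hA := rest_rel M ι₀ θ d cc z (by linarith) hrel hdeg
      have hB := st_HP (L ≃ₐ[F] L) {v // v ∉ M.S} (fun v => q (v : Pl F)) (fun v => M.g v) n
        (fun v => M.α ι₀ v) (M.w : ℝ) (N + 1) θ ε cc hε (fun v => hq v)
        (fun σ hσ => (hsum σ hσ).subtype _) (fun v j => (M.pure ι₀ v v.2 j).le) hrel z hzw
      have hΛ : ∀ i, ΛΛ i z = M.rest ι₀ (θ i) (d i) z *
          ∏' v : {v // v ∉ M.S}, ∏ j : Fin n,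
            (ε i (M.g v) (M.α ι₀ v j * ((q (v : Pl F) : ℕ) : ℂ) ^ (-z)))⁻¹ := by
        intro i
        refine Fin.cases ?_ (fun i => ?_) i
        · exact hσ₁ z hz1
        · exact hσ₂ i z (lt_of_le_of_lt (hσ₃ i) hz3)
      refine ⟨fun i => ?_, ?_⟩
      · rw [hΛ]
        exact mul_ne_zero (hA.1 i) (hB.1 i)
      · rw [Finset.prod_congr rfl fun i _ => by rw [hΛ i, mul_zpow], Finset.prod_mul_distrib,
          hA.2, hB.2, one_mul])
  -- the order of the function over `F` is zero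
  have hord : ∀ i : Fin N, meromorphicOrderAt (Λ i) s = 0 := by
    intro i
    rw [(ha i).1.meromorphicOrderAt_eq, (ha i).1.analyticOrderAt_eq_zero.2 (ha i).2]
    rfl
  have h0s : Λ₀ s ≠ 0 := by
    have h1 := key.2.1 s
    rw [Fin.sum_univ_succ] at h1
    have h2 : ∀ i : Fin N, cc i.succ * (meromorphicOrderAt (ΛΛ i.succ) s).untop₀ = 0 := by
      intro i
      show c i * (meromorphicOrderAt (Λ i) s).untop₀ = 0
      rw [hord i]
      simp
    rw [Finset.sum_congr rfl fun i _ => h2 i, Finset.sum_const_zero, add_zero] at h1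
    have h3 : (meromorphicOrderAt Λ₀ s).untop₀ = 0 := by
      have h4 : (-1 : ℤ) * (meromorphicOrderAt Λ₀ s).untop₀ = 0 := h1
      omega
    have h4 : meromorphicOrderAt Λ₀ s ≠ ⊤ := key.1 0 s
    have h5 : meromorphicOrderAt Λ₀ s = 0 := by
      rw [← WithTop.coe_untop₀_of_ne_top h4, h3]
      rfl
    rw [ha0.meromorphicOrderAt_eq] at h5
    have h6 : analyticOrderAt Λ₀ s = 0 := by
      cases h7 : analyticOrderAt Λ₀ s with
      | top => rw [h7] at h5; simp at h5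
      | coe k =>
        rw [h7] at h5
        have h8 : ((k : ℤ) : WithTop ℤ) = 0 := h5
        have h9 : (k : ℤ) = 0 := by exact_mod_cast h8
        have h10 : k = 0 := by exact_mod_cast h9
        rw [h10]
        rfl
    exact ha0.analyticOrderAt_eq_zero.1 h6
  have h1 := key.2.2 s (by
    intro i
    refine Fin.cases ?_ (fun i => ?_) i
    · exact ⟨ha0, h0s⟩
    · exact ha i)
  rw [Fin.prod_univ_succ] at h1
  have h2 : (Λ₀ s) ^ (-1 : ℤ) * ∏ i, (Λ i s) ^ (c i) = 1 := h1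
  rw [zpow_neg_one] at h2
  field_simp at h2
  exact h2.symm

theorem u1 (F L E E' : Type) [Field F] [NumberField F] [Field L] [NumberField L] [Algebra F L]
    [IsGalois F L] [Field E] [NumberField E] [Field E'] [NumberField E'] [Algebra E E']
    (hF : IsTotallyComplex F) (n : ℕ) (M : Mot F L E n) (m : ℤ)
    (r : ℕ) (τ : (L ≃ₐ[F] L) →* Matrix.GeneralLinearGroup (Fin r) E)
    (Λ : (E →+* ℂ) → ℂ → ℂ) (hΛ : ∀ ι, Contn (M.LR τ ι) (Λ ι) m)
    (N : ℕ) (H : Fin N → Subgroup (L ≃ₐ[F] L)) (χ : ∀ i, Ch E' (H i)) (c : Fin N → ℤ)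
    (hc : ∀ x, algebraMap E E' (Matrix.trace (τ x : Matrix (Fin r) (Fin r) E)) =
      ∑ i, (c i : E') * ind (H i) (χ i).hom x)
    (Λ' : Fin N → (E' →+* ℂ) → ℂ → ℂ) (hΛ' : ∀ i ι, Contn (M.LK (H i) (χ i) ι) (Λ' i ι) m)
    (hr : ∀ i, Ratio (IntermediateField.fixedField (H i)) E' n m (Λ' i)) :
    Ratio F E (n * r) m Λ := by
  intro δ₀ hδ₀
  choose δ hδ using fun i => exists_delta (IntermediateField.fixedField (H i))
  choose e he0 he using fun i => hr i (δ i) (hδ i)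
  have hnz : ∀ i ι, Λ' i ι m ≠ 0 ∧ Λ' i ι (m + 1) ≠ 0 := by
    intro i ι
    have h1 := he i ι
    have h2 : ι (e i) * (Complex.I ^ (Module.finrank ℚ
        (IntermediateField.fixedField (H i)) / 2) * δ i) ^ n ≠ 0 := by
      refine mul_ne_zero ((map_ne_zero ι).2 (he0 i)) (pow_ne_zero _ (mul_ne_zero
        (pow_ne_zero _ Complex.I_ne_zero) (delta_ne_zero (hδ i))))
    rw [← h1] at h2
    exact div_ne_zero_iff.1 h2
  choose a ha0 ha using fun i => st_DEL2 st_DEL (st_TRC st_TRG) F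
    (IntermediateField.fixedField (H i)) δ₀ (δ i) hF hδ₀ (hδ i)
  have hidx : ∀ i, Module.finrank F (IntermediateField.fixedField (H i)) = (H i).index := by
    intro i
    have h1 := IntermediateField.finrank_fixedField_eq_card (H i)
    have h2 := Module.finrank_mul_finrank F (IntermediateField.fixedField (H i)) L
    have h3 := IsGalois.card_aut_eq_finrank F L
    have h4 := Subgroup.card_mul_index (H i)
    have h5 : 0 < Nat.card (H i) := Nat.card_pos
    rw [h1, ← h3, ← h4, mul_comm] at h2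
    exact Nat.eq_of_mul_eq_mul_left h5 h2
  have hdF : ∃ d : ℕ, Module.finrank ℚ F = 2 * d := ⟨_, IsTotallyComplex.finrank F⟩
  obtain ⟨d, hd⟩ := hdF
  have hdK : ∀ i, Module.finrank ℚ (IntermediateField.fixedField (H i)) / 2 =
      d * (H i).index := by
    intro i
    have h1 := Module.finrank_mul_finrank ℚ F (IntermediateField.fixedField (H i))
    rw [← h1, hd, hidx]
    rw [mul_assoc, Nat.mul_div_cancel_left _ two_pos]
  have hdF2 : Module.finrank ℚ F / 2 = d := by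
    rw [hd, Nat.mul_div_cancel_left _ two_pos]
  rw [hdF2]
  set y : ℂ := (Complex.I ^ d * δ₀) ^ n with hy
  have hδ0 : δ₀ ≠ 0 := delta_ne_zero hδ₀
  have hy0 : y ≠ 0 := pow_ne_zero _ (mul_ne_zero (pow_ne_zero _ Complex.I_ne_zero) hδ0)
  have hfac : ∀ i, (Complex.I ^ (Module.finrank ℚ (IntermediateField.fixedField (H i)) / 2) *
      δ i) ^ n = ((a i : ℚ) : ℂ) ^ n * y ^ (H i).index := by
    intro i
    rw [hdK, ha, hidx, hy]
    rw [pow_mul, ← pow_mul _ n, mul_comm n, pow_mul _ _ n, ← mul_pow, mul_pow (Complex.I ^ d)]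
    congr 1
    ring
  -- the degrees
  have hdeg : ∑ i, c i * ((H i).index : ℤ) = r := by
    have h1 := hc 1
    rw [map_one, Units.val_one, Matrix.trace_one, Fintype.card_fin, map_natCast] at h1
    have h2 : ∀ i, (c i : E') * ind (H i) (χ i).hom 1 = ((c i * ((H i).index : ℤ) : ℤ) : E') := by
      intro i
      rw [ind_one]
      push_cast
      ring
    rw [Finset.sum_congr rfl fun i _ => h2 i, ← Int.cast_sum] at h1
    exact_mod_cast h1.symm
  set e' : E' := ∏ i, (e i * ((a i : ℚ) : E') ^ n) ^ (c i) with he'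
  have he'0 : e' ≠ 0 := by
    rw [he', Finset.prod_ne_zero_iff]
    intro i _
    apply zpow_ne_zero
    apply mul_ne_zero (he0 i)
    apply pow_ne_zero
    exact_mod_cast ha0 i
  have hval : ∀ ι : E' →+* ℂ, Λ (ι.comp (algebraMap E E')) m /
      Λ (ι.comp (algebraMap E E')) (m + 1) = ι e' * y ^ r := by
    intro ι
    have h0 := hΛ (ι.comp (algebraMap E E'))
    have h1 := values M τ H χ c hc ι (Λ (ι.comp (algebraMap E E'))) (fun i => Λ' i ι) h0.1
      (fun i => (hΛ' i ι).1) h0.2.1 (fun i => (hΛ' i ι).2.1) m h0.2.2.1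
      (fun i => ⟨(hΛ' i ι).2.2.1, (hnz i ι).1⟩)
    have h2 := values M τ H χ c hc ι (Λ (ι.comp (algebraMap E E'))) (fun i => Λ' i ι) h0.1
      (fun i => (hΛ' i ι).1) h0.2.1 (fun i => (hΛ' i ι).2.1) (m + 1) h0.2.2.2
      (fun i => ⟨(hΛ' i ι).2.2.2, (hnz i ι).2⟩)
    rw [h1, h2, ← Finset.prod_div_distrib, he', map_prod]
    have h3 : ∀ i, Λ' i ι m ^ c i / Λ' i ι (m + 1) ^ c i =
        ι ((e i * ((a i : ℚ) : E') ^ n) ^ (c i)) * y ^ (((H i).index : ℤ) * c i) := by
      intro i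
      rw [← div_zpow, he, hfac, map_zpow₀, map_mul, map_pow, map_ratCast, ← mul_assoc, mul_zpow,
        zpow_mul, zpow_natCast]
    rw [Finset.prod_congr rfl fun i _ => h3 i, Finset.prod_mul_distrib, zpow_sum' hy0]
    have h4 : ∑ i, ((H i).index : ℤ) * c i = r := by
      rw [← hdeg]
      exact Finset.sum_congr rfl fun i _ => mul_comm _ _
    rw [h4, zpow_natCast]
  obtain ⟨e₀, he₀⟩ := st_DSC E E' e' (fun ι => Λ ι m / Λ ι (m + 1) / y ^ r) (by
    intro ι
    rw [hval ι]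
    field_simp)
  refine ⟨e₀, ?_, fun ι => ?_⟩
  · rintro rfl
    rw [map_zero] at he₀
    exact he'0 he₀.symm
  · have : FiniteDimensional E E' := Module.Finite.of_restrictScalars_finite ℚ E E'
    have : Algebra.IsAlgebraic E E' := Algebra.IsAlgebraic.of_finite E E'
    let _ : Algebra E ℂ := ι.toAlgebra
    let φ : E' →ₐ[E] ℂ := IsAlgClosed.lift
    have h1 : (φ : E' →+* ℂ).comp (algebraMap E E') = ι := by
      ext x
      exact φ.commutes x
    have h2 := hval (φ : E' →+* ℂ)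
    rw [h1, ← he₀] at h2
    rw [h2]
    have h3 : (φ : E' →+* ℂ) (algebraMap E E' e₀) = ι e₀ := φ.commutes e₀
    rw [h3, hy, ← pow_mul]

end main

end BKA
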