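import Pool.Agent.Helper64.BKA.CoreV
import Pool.Agent.Helper64.BKA.U1

/-!
# U2: descent of the formula for ratios of successive critical values along relations between
motives induced from extension fields
-/

set_option autoImplicit false

open NumberField
open scoped Classical

namespace BKA

section

variable {F K₀ E E' : Type} [Field F] [NumberField F] [Field K₀] [NumberField K₀] [Algebra F K₀]
  [Field E] [Field E'] [Algebra E E'] {n : ℕ} {w : ℤ}

/-- places over `v` are finite in number -/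
theorem finite_over {K : Type} [Field K] [NumberField K] [Algebra F K] (v : Pl F) :
    Finite {w : Pl K // w.asIdeal.comap (algebraMap (𝓞 F) (𝓞 K)) = v.asIdeal} := by
  have h1 := IsDedekindDomain.primesOver_finite (B := 𝓞 K) v.asIdeal
  have h2 : Function.Injective (fun w : {w : Pl K //
      w.asIdeal.comap (algebraMap (𝓞 F) (𝓞 K)) = v.asIdeal} =>
      (⟨(w : Pl K).asIdeal, ⟨(w : Pl K).isPrime, ⟨w.2.symm⟩⟩⟩ : v.asIdeal.primesOver (𝓞 K))) := by
    intro a b hab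
    have h3 := congrArg Subtype.val hab
    exact Subtype.ext (IsDedekindDomain.HeightOneSpectrum.ext h3)
  have := h1.to_subtype
  exact Finite.of_injective _ h2

theorem indT_map {K R R' : Type} [Field K] [NumberField K] [Algebra F K] [Field R] [Field R']
    (e : R →+* R') (κ : Pl K → ℕ → R) (v : Pl F) (k : ℕ) :
    indT (F := F) (fun v k => e (κ v k)) v k = e (indT (F := F) κ v k) := by
  have := finite_over (K := K) v
  have := Fintype.ofFinite {w : Pl K // w.asIdeal.comap (algebraMap (𝓞 F) (𝓞 K)) = v.asIdeal}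
  unfold indT
  rw [finsum_eq_sum_of_fintype, finsum_eq_sum_of_fintype, map_sum]
  refine Finset.sum_congr rfl fun w _ => ?_
  split_ifs with h
  · rw [map_mul, map_natCast]
  · rw [map_zero]

/-- the Gamma factor with an arbitrary finite set of exponents -/
theorem gam_eq {K : Type} [Field K] [NumberField K] (M : MotT K E n w) (ι : E →+* ℂ)
    (T : Finset ℤ) (hT : (M.h ι).support ⊆ T) (s : ℂ) :
    ∏ p ∈ (M.h ι).support, Complex.Gammaℂ (s - p) ^ M.h ι p =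
      ∏ p ∈ T, Complex.Gammaℂ (s - p) ^ M.h ι p := by
  refine Finset.prod_subset hT fun p _ hp => ?_
  rw [Finsupp.notMem_support_iff.1 hp, pow_zero]

/-- far to the right, the completed `L`-function of `M` is the product of powers of those of the
pieces -/
theorem prodT (gr : ST_GRP) (M : MotT K₀ E n w) {N : ℕ} (K : Fin N → Type) [∀ i, Field (K i)]
    [∀ i, NumberField (K i)] [∀ i, Algebra F (K i)] (d : Fin N → ℕ)
    (M' : ∀ i, MotT (K i) E' (d i) w) (c : Fin N → ℤ)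
    (hκ : ∀ v k, algebraMap E E' (indT (F := F) M.κ v k) =
      ∑ i, (c i : E') * indT (F := F) (M' i).κ v k)
    (hh : ∀ (ι : E' →+* ℂ) p, (M.h (ι.comp (algebraMap E E')) p : ℤ) =
      ∑ i, c i * ((M' i).h ι p : ℤ))
    (ι : E' →+* ℂ) :
    ∃ σ : ℝ, ∀ z : ℂ, σ < z.re → M.L (ι.comp (algebraMap E E')) z ≠ 0 ∧
      (∀ i, (M' i).L ι z ≠ 0) ∧
      M.L (ι.comp (algebraMap E E')) z = ∏ i, ((M' i).L ι z) ^ (c i) := by
  set ι₀ := ι.comp (algebraMap E E') with hι₀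
  choose C A hA using fun i => (M' i).bound ι
  obtain ⟨A₀, hA₀⟩ : ∃ A₀ : ℝ, ∀ i, |A i| + 2 ≤ A₀ + 2 := by
    refine ⟨∑ i, |A i|, fun i => ?_⟩
    have := Finset.single_le_sum (f := fun i => |A i|) (fun i _ => abs_nonneg _)
      (Finset.mem_univ i)
    linarith
  obtain ⟨C₁, A₁, hA₁⟩ := M.bound ι₀
  refine ⟨max ((w : ℝ) / 2) (max (|A₁| + 2) (A₀ + 2)), fun z hz => ?_⟩
  have hzw : (w : ℝ) / 2 < z.re := lt_of_le_of_lt (le_max_left _ _) hz
  have hz1 : |A₁| + 2 < z.re := lt_of_le_of_lt ((le_max_left _ _).trans (le_max_right _ _)) hz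
  have hzA : A₀ + 2 < z.re := lt_of_le_of_lt ((le_max_right _ _).trans (le_max_right _ _)) hz
  have hzi : ∀ i, |A i| + 2 < z.re := fun i => lt_of_le_of_lt (hA₀ i) hzA
  -- the logarithms
  have hg := fun i => gr F (K i) (fun v k => ι ((M' i).κ v k)) (C i) (A i) (hA i) z (hzi i)
  have hlog : logL (fun v k => ι₀ (M.κ v k)) z =
      ∑ i, (c i : ℂ) * logL (fun v k => ι ((M' i).κ v k)) z := by
    have h1 : ∀ i, (c i : ℂ) * logL (fun v k => ι ((M' i).κ v k)) z =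
        ∑' x : Pl F × ℕ, (c i : ℂ) * (indT (F := F) (fun v k => ι ((M' i).κ v k)) x.1 x.2 *
          (q x.1 : ℂ) ^ (-((x.2 + 1 : ℂ) * z)) / (x.2 + 1)) := by
      intro i
      rw [(hg i).2.2, logL, tsum_mul_left]
    rw [Finset.sum_congr rfl fun i _ => h1 i, ← Summable.tsum_finsetSum
      (fun i _ => ((hg i).2.1.mul_left _)),
      (gr F K₀ (fun v k => ι₀ (M.κ v k)) C₁ A₁ hA₁ z hz1).2.2, logL]
    refine tsum_congr fun x => ?_
    have h2 : indT (F := F) (fun v k => ι₀ (M.κ v k)) x.1 x.2 =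
        ∑ i, (c i : ℂ) * indT (F := F) (fun v k => ι ((M' i).κ v k)) x.1 x.2 := by
      rw [indT_map, hι₀, RingHom.comp_apply, hκ, map_sum]
      refine Finset.sum_congr rfl fun i _ => ?_
      rw [indT_map, map_mul, map_intCast]
    rw [h2, Finset.sum_mul, Finset.sum_div]
    refine Finset.sum_congr rfl fun i _ => ?_
    ring
  -- the Gamma factors
  let T : Finset ℤ := (M.h ι₀).support ∪ Finset.univ.biUnion fun i => ((M' i).h ι).support
  have hT0 : (M.h ι₀).support ⊆ T := Finset.subset_union_left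
  have hTi : ∀ i, ((M' i).h ι).support ⊆ T := fun i =>
    (Finset.subset_biUnion_of_mem (fun i => ((M' i).h ι).support) (Finset.mem_univ i)).trans
      Finset.subset_union_right
  have hTw : ∀ p ∈ T, Complex.Gammaℂ (z - p) ≠ 0 := by
    intro p hp
    have h1 : 2 * p < w := by
      rcases Finset.mem_union.1 hp with h | h
      · exact (M.hodge ι₀).1 p h
      · obtain ⟨i, -, hi⟩ := Finset.mem_biUnion.1 h
        exact ((M' i).hodge ι).1 p hi
    apply gammaC_ne_zero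
    have h2 : (2 * p : ℝ) < w := by exact_mod_cast h1
    simp only [Complex.sub_re, Complex.intCast_re]
    linarith
  have hgam : ∏ p ∈ T, Complex.Gammaℂ (z - p) ^ M.h ι₀ p =
      ∏ i, (∏ p ∈ T, Complex.Gammaℂ (z - p) ^ (M' i).h ι p) ^ (c i) := by
    have h1 : ∀ i, (∏ p ∈ T, Complex.Gammaℂ (z - p) ^ (M' i).h ι p) ^ (c i) =
        ∏ p ∈ T, Complex.Gammaℂ (z - p) ^ (c i * ((M' i).h ι p : ℤ)) := by
      intro i
      rw [← Finset.prod_zpow]
      refine Finset.prod_congr rfl fun p _ => ?_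
      rw [mul_comm (c i), zpow_mul, zpow_natCast]
    rw [Finset.prod_congr rfl fun i _ => h1 i, Finset.prod_comm]
    refine Finset.prod_congr rfl fun p hp => ?_
    rw [zpow_sum' (hTw p hp), ← hh, zpow_natCast]
  have hL0 : M.L ι₀ z = (∏ p ∈ T, Complex.Gammaℂ (z - p) ^ M.h ι₀ p) *
      Complex.exp (logL (fun v k => ι₀ (M.κ v k)) z) := by
    rw [MotT.L, gam_eq M ι₀ T hT0]
  have hLi : ∀ i, (M' i).L ι z = (∏ p ∈ T, Complex.Gammaℂ (z - p) ^ (M' i).h ι p) *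
      Complex.exp (logL (fun v k => ι ((M' i).κ v k)) z) := by
    intro i
    rw [MotT.L, gam_eq (M' i) ι T (hTi i)]
  have hprod : ∀ f : ℤ → ℕ, ∏ p ∈ T, Complex.Gammaℂ (z - p) ^ f p ≠ 0 := fun f =>
    Finset.prod_ne_zero_iff.2 fun p hp => pow_ne_zero _ (hTw p hp)
  refine ⟨?_, fun i => ?_, ?_⟩
  · rw [hL0]
    exact mul_ne_zero (hprod _) (Complex.exp_ne_zero _)
  · rw [hLi i]
    exact mul_ne_zero (hprod _) (Complex.exp_ne_zero _)
  · rw [hL0, hlog, hgam, Complex.exp_sum, ← Finset.prod_mul_distrib]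
    refine Finset.prod_congr rfl fun i _ => ?_
    rw [hLi i, mul_zpow, ← Complex.exp_int_mul]

theorem mero_zpow {f : ℂ → ℂ} (hf : MeromorphicOn f Set.univ) (c : ℤ) :
    MeromorphicOn (fun s => f s ^ c) Set.univ := fun s hs => (hf s hs).zpow c

/-- the product of powers of continuations is a continuation -/
theorem contT (gr : ST_GRP) (M : MotT K₀ E n w) {N : ℕ} (K : Fin N → Type) [∀ i, Field (K i)]
    [∀ i, NumberField (K i)] [∀ i, Algebra F (K i)] (d : Fin N → ℕ)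
    (M' : ∀ i, MotT (K i) E' (d i) w) (c : Fin N → ℤ)
    (hκ : ∀ v k, algebraMap E E' (indT (F := F) M.κ v k) =
      ∑ i, (c i : E') * indT (F := F) (M' i).κ v k)
    (hh : ∀ (ι : E' →+* ℂ) p, (M.h (ι.comp (algebraMap E E')) p : ℤ) =
      ∑ i, c i * ((M' i).h ι p : ℤ))
    (ι : E' →+* ℂ) (Λ : Fin N → ℂ → ℂ) (m : ℤ) (hm : ∀ i, Contn ((M' i).L ι) (Λ i) m)
    (h0 : ∀ i, Λ i m ≠ 0) (h1 : ∀ i, Λ i (m + 1) ≠ 0) :
    Contn (M.L (ι.comp (algebraMap E E'))) (fun s => ∏ i, (Λ i s) ^ (c i)) m := by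
  obtain ⟨σ₁, hσ₁⟩ := prodT gr M K d M' c hκ hh ι
  choose σ₂ hσ₂ using fun i => (hm i).2.1
  obtain ⟨σ₃, hσ₃⟩ : ∃ σ₃ : ℝ, ∀ i, σ₂ i ≤ σ₃ := by
    refine ⟨∑ i, |σ₂ i|, fun i => (le_abs_self _).trans ?_⟩
    exact Finset.single_le_sum (f := fun i => |σ₂ i|) (fun i _ => abs_nonneg _) (Finset.mem_univ i)
  refine ⟨?_, ⟨max σ₁ σ₃, fun s hs => ?_⟩, ?_, ?_⟩
  · intro s hs
    exact MeromorphicAt.fun_prod (fun i _ => mero_zpow (hm i).1 (c i) s hs)
  · rw [(hσ₁ s (lt_of_le_of_lt (le_max_left _ _) hs)).2.2]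
    refine Finset.prod_congr rfl fun i _ => ?_
    rw [hσ₂ i s (lt_of_le_of_lt (hσ₃ i) (lt_of_le_of_lt (le_max_right _ _) hs))]
  · exact Finset.analyticAt_fun_prod _ fun i _ => ((hm i).2.2.1).zpow (h0 i)
  · exact Finset.analyticAt_fun_prod _ fun i _ => ((hm i).2.2.2).zpow (h1 i)

theorem valuesT (gr : ST_GRP) (M : MotT K₀ E n w) {N : ℕ} (K : Fin N → Type) [∀ i, Field (K i)]
    [∀ i, NumberField (K i)] [∀ i, Algebra F (K i)] (d : Fin N → ℕ)
    (M' : ∀ i, MotT (K i) E' (d i) w) (c : Fin N → ℤ)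
    (hκ : ∀ v k, algebraMap E E' (indT (F := F) M.κ v k) =
      ∑ i, (c i : E') * indT (F := F) (M' i).κ v k)
    (hh : ∀ (ι : E' →+* ℂ) p, (M.h (ι.comp (algebraMap E E')) p : ℤ) =
      ∑ i, c i * ((M' i).h ι p : ℤ))
    (ι : E' →+* ℂ) (Λ₀ : ℂ → ℂ) (Λ : Fin N → ℂ → ℂ)
    (h0 : MeromorphicOn Λ₀ Set.univ) (hm : ∀ i, MeromorphicOn (Λ i) Set.univ)
    (h0' : ∃ σ : ℝ, ∀ s : ℂ, σ < s.re → Λ₀ s = M.L (ι.comp (algebraMap E E')) s)
    (hm' : ∀ i, ∃ σ : ℝ, ∀ s : ℂ, σ < s.re → Λ i s = (M' i).L ι s)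
    (s : ℂ) (ha0 : AnalyticAt ℂ Λ₀ s) (ha : ∀ i, AnalyticAt ℂ (Λ i) s ∧ Λ i s ≠ 0) :
    Λ₀ s = ∏ i, (Λ i s) ^ (c i) := by
  set ι₀ := ι.comp (algebraMap E E') with hι₀
  let cc : Fin (N + 1) → ℤ := Fin.cons (-1) c
  let ΛΛ : Fin (N + 1) → ℂ → ℂ := Fin.cons Λ₀ Λ
  obtain ⟨σ₀, hσ₀⟩ := prodT gr M K d M' c hκ hh ι
  obtain ⟨σ₁, hσ₁⟩ := h0'
  choose σ₂ hσ₂ using hm'
  obtain ⟨σ₃, hσ₃⟩ : ∃ σ₃ : ℝ, ∀ i, σ₂ i ≤ σ₃ := by
    refine ⟨∑ i, |σ₂ i|, fun i => (le_abs_self _).trans ?_⟩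
    exact Finset.single_le_sum (f := fun i => |σ₂ i|) (fun i _ => abs_nonneg _) (Finset.mem_univ i)
  have key := st_CON (N + 1) cc ΛΛ (max σ₀ (max σ₁ σ₃)) (by
      intro i
      refine Fin.cases ?_ (fun i => ?_) i
      · exact h0
      · exact hm i) (by
      intro z hz
      have hz0 : σ₀ < z.re := lt_of_le_of_lt (le_max_left _ _) hz
      have hz1 : σ₁ < z.re := lt_of_le_of_lt ((le_max_left _ _).trans (le_max_right _ _)) hz
      have hz3 : σ₃ < z.re := lt_of_le_of_lt ((le_max_right _ _).trans (le_max_right _ _)) hz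
      obtain ⟨g1, g2, g3⟩ := hσ₀ z hz0
      have hL0 : Λ₀ z = M.L ι₀ z := hσ₁ z hz1
      have hLi : ∀ i, Λ i z = (M' i).L ι z := fun i => hσ₂ i z (lt_of_le_of_lt (hσ₃ i) hz3)
      have hne0 : Λ₀ z ≠ 0 := by
        rw [hL0]
        exact g1
      refine ⟨fun i => ?_, ?_⟩
      · refine Fin.cases ?_ (fun i => ?_) i
        · exact hne0
        · show Λ i z ≠ 0
          rw [hLi i]
          exact g2 i
      · rw [Fin.prod_univ_succ]
        show (Λ₀ z) ^ (-1 : ℤ) * ∏ i, (Λ i z) ^ (c i) = 1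
        have h1 : ∏ i, (Λ i z) ^ (c i) = Λ₀ z := by
          rw [hL0, g3]
          refine Finset.prod_congr rfl fun i _ => ?_
          rw [hLi i]
        rw [h1, zpow_neg_one, inv_mul_cancel₀ hne0])
  have hord : ∀ i : Fin N, meromorphicOrderAt (Λ i) s = 0 := by
    intro i
    rw [(ha i).1.meromorphicOrderAt_eq, (ha i).1.analyticOrderAt_eq_zero.2 (ha i).2]
    rfl
  have h0s : Λ₀ s ≠ 0 := by
    have h1 := key.2.1 s
    rw [Fin.sum_univ_succ] at h1
    have h2 : ∀ i : Fin N, cc i.succ * (meromorphicOrderAt (ΛΛ i.succ) s).untop₀ = 0 := by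
      intro i
      show c i * (meromorphicOrderAt (Λ i) s).untop₀ = 0
      rw [hord i]
      simp
    rw [Finset.sum_congr rfl fun i _ => h2 i, Finset.sum_const_zero, add_zero] at h1
    have h3 : (meromorphicOrderAt Λ₀ s).untop₀ = 0 := by
      have h4 : (-1 : ℤ) * (meromorphicOrderAt Λ₀ s).untop₀ = 0 := h1
      omega
    have h4 : meromorphicOrderAt Λ₀ s ≠ ⊤ := key.1 0 s
    have h5 : meromorphicOrderAt Λ₀ s = 0 := by
      rw [← WithTop.coe_untop₀_of_ne_top h4, h3]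
      rfl
    rw [ha0.meromorphicOrderAt_eq] at h5
    have h6 : analyticOrderAt Λ₀ s = 0 := by
      cases h7 : analyticOrderAt Λ₀ s with
      | top => rw [h7] at h5; simp at h5
      | coe k =>
        rw [h7] at h5
        have h8 : ((k : ℤ) : WithTop ℤ) = 0 := h5
        have h9 : (k : ℤ) = 0 := by exact_mod_cast h8
        have h10 : k = 0 := by exact_mod_cast h9
        rw [h10]
        rfl
    exact ha0.analyticOrderAt_eq_zero.1 h6
  have h1 := key.2.2 s (by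
    intro i
    refine Fin.cases ?_ (fun i => ?_) i
    · exact ⟨ha0, h0s⟩
    · exact ha i)
  rw [Fin.prod_univ_succ] at h1
  have h2 : (Λ₀ s) ^ (-1 : ℤ) * ∏ i, (Λ i s) ^ (c i) = 1 := h1
  rw [zpow_neg_one] at h2
  field_simp at h2
  exact h2.symm

end

theorem u2 (gr : ST_GRP) (F K₀ E E' : Type) [Field F] [NumberField F] [Field K₀] [NumberField K₀]
    [Algebra F K₀] [Field E] [NumberField E]
    [Field E'] [NumberField E'] [Algebra E E'] (hF : IsTotallyComplex F) (n : ℕ) (w : ℤ)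
    (M : MotT K₀ E n w) (m : ℤ) (Λ : (E →+* ℂ) → ℂ → ℂ) (hΛ : ∀ ι, Contn (M.L ι) (Λ ι) m)
    (N : ℕ) (K : Fin N → Type) [∀ i, Field (K i)]
    [∀ i, NumberField (K i)] [∀ i, Algebra F (K i)] (d : Fin N → ℕ)
    (M' : ∀ i, MotT (K i) E' (d i) w) (c : Fin N → ℤ)
    (hκ : ∀ v k, algebraMap E E' (indT (F := F) M.κ v k) =
      ∑ i, (c i : E') * indT (F := F) (M' i).κ v k)
    (hh : ∀ (ι : E' →+* ℂ) p, (M.h (ι.comp (algebraMap E E')) p : ℤ) =
      ∑ i, c i * ((M' i).h ι p : ℤ))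
    (Λ' : Fin N → (E' →+* ℂ) → ℂ → ℂ) (hΛ' : ∀ i ι, Contn ((M' i).L ι) (Λ' i ι) m)
    (hr : ∀ i, Ratio (K i) E' (d i) m (Λ' i)) : Ratio K₀ E n m Λ := by
  intro δ₁ hδ₁
  obtain ⟨δ₀, hδ₀⟩ := exists_delta F
  choose δ hδ using fun i => exists_delta (K i)
  choose e he0 he using fun i => hr i (δ i) (hδ i)
  have hnz : ∀ i ι, Λ' i ι m ≠ 0 ∧ Λ' i ι (m + 1) ≠ 0 := by
    intro i ι
    have h1 := he i ι
    have h2 : ι (e i) * (Complex.I ^ (Module.finrank ℚ (K i) / 2) * δ i) ^ (d i) ≠ 0 := by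
      refine mul_ne_zero ((map_ne_zero ι).2 (he0 i)) (pow_ne_zero _ (mul_ne_zero
        (pow_ne_zero _ Complex.I_ne_zero) (delta_ne_zero (hδ i))))
    rw [← h1] at h2
    exact div_ne_zero_iff.1 h2
  choose a ha0 ha using fun i => st_DEL2 st_DEL (st_TRC st_TRG) F (K i) δ₀ (δ i) hF hδ₀ (hδ i)
  obtain ⟨a₁, ha10, ha1⟩ := st_DEL2 st_DEL (st_TRC st_TRG) F K₀ δ₀ δ₁ hF hδ₀ hδ₁
  have hdF : ∃ e : ℕ, Module.finrank ℚ F = 2 * e := ⟨_, IsTotallyComplex.finrank F⟩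
  obtain ⟨f, hf⟩ := hdF
  have hf0 : 0 < f := by
    have : 0 < Module.finrank ℚ F := Module.finrank_pos
    omega
  have hdK : ∀ (K' : Type) [Field K'] [NumberField K'] [Algebra F K'],
      Module.finrank ℚ K' / 2 = f * Module.finrank F K' := by
    intro K' _ _ _
    have h1 := Module.finrank_mul_finrank ℚ F K'
    rw [← h1, hf, mul_assoc, Nat.mul_div_cancel_left _ two_pos]
  set y : ℂ := Complex.I ^ f * δ₀ with hy
  have hδ0 : δ₀ ≠ 0 := delta_ne_zero hδ₀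
  have hy0 : y ≠ 0 := mul_ne_zero (pow_ne_zero _ Complex.I_ne_zero) hδ0
  have hfac : ∀ i, (Complex.I ^ (Module.finrank ℚ (K i) / 2) * δ i) ^ (d i) =
      ((a i : ℚ) : ℂ) ^ (d i) * y ^ (Module.finrank F (K i) * d i) := by
    intro i
    rw [hdK, ha, hy, pow_mul (Complex.I ^ f * δ₀), ← mul_pow, mul_pow (Complex.I ^ f),
      pow_mul Complex.I]
    congr 1
    ring
  have hfac1 : (Complex.I ^ (Module.finrank ℚ K₀ / 2) * δ₁) ^ n =
      ((a₁ : ℚ) : ℂ) ^ n * y ^ (Module.finrank F K₀ * n) := by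
    rw [hdK, ha1, hy, pow_mul (Complex.I ^ f * δ₀), ← mul_pow, mul_pow (Complex.I ^ f),
      pow_mul Complex.I]
    congr 1
    ring
  -- the degrees
  obtain ⟨ι₁⟩ : Nonempty (E' →+* ℂ) := inferInstance
  have hdeg : ∑ i, ((Module.finrank F (K i) * d i : ℕ) : ℤ) * c i =
      ((Module.finrank F K₀ * n : ℕ) : ℤ) := by
    let ι₀ := ι₁.comp (algebraMap E E')
    let T : Finset ℤ := (M.h ι₀).support ∪ Finset.univ.biUnion fun i => ((M' i).h ι₁).support
    have hT0 : (M.h ι₀).support ⊆ T := Finset.subset_union_left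
    have hTi : ∀ i, ((M' i).h ι₁).support ⊆ T := fun i =>
      (Finset.subset_biUnion_of_mem (fun i => ((M' i).h ι₁).support) (Finset.mem_univ i)).trans
        Finset.subset_union_right
    have h1 : ∑ p ∈ T, M.h ι₀ p = n * (f * Module.finrank F K₀) := by
      rw [← hdK, ← (M.hodge ι₀).2, Finsupp.sum]
      exact (Finset.sum_subset hT0 fun p _ hp => Finsupp.notMem_support_iff.1 hp).symm
    have h2 : ∀ i, ∑ p ∈ T, (M' i).h ι₁ p = d i * (f * Module.finrank F (K i)) := by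
      intro i
      rw [← hdK, ← ((M' i).hodge ι₁).2, Finsupp.sum]
      exact (Finset.sum_subset (hTi i) fun p _ hp => Finsupp.notMem_support_iff.1 hp).symm
    have h3 : ((∑ p ∈ T, M.h ι₀ p : ℕ) : ℤ) = ∑ i, c i * ((∑ p ∈ T, (M' i).h ι₁ p : ℕ) : ℤ) := by
      push_cast
      rw [Finset.sum_congr rfl fun p _ => hh ι₁ p, Finset.sum_comm]
      refine Finset.sum_congr rfl fun i _ => ?_
      rw [Finset.mul_sum]
    rw [h1] at h3
    simp only [h2] at h3
    have h4 : (f : ℤ) * ∑ i, ((Module.finrank F (K i) * d i : ℕ) : ℤ) * c i =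
        f * ((Module.finrank F K₀ * n : ℕ) : ℤ) := by
      rw [Finset.mul_sum]
      have h5 : (f : ℤ) * ((Module.finrank F K₀ * n : ℕ) : ℤ) =
          ((n * (f * Module.finrank F K₀) : ℕ) : ℤ) := by push_cast; ring
      rw [h5, h3]
      refine Finset.sum_congr rfl fun i _ => ?_
      push_cast
      ring
    have hf1 : (f : ℤ) ≠ 0 := by exact_mod_cast hf0.ne'
    exact mul_left_cancel₀ hf1 h4
  set e₁ : E' := ∏ i, (e i * ((a i : ℚ) : E') ^ (d i)) ^ (c i) with he₁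
  have he10 : e₁ ≠ 0 := by
    rw [he₁, Finset.prod_ne_zero_iff]
    intro i _
    apply zpow_ne_zero
    apply mul_ne_zero (he0 i)
    apply pow_ne_zero
    exact_mod_cast ha0 i
  have ha1E : ((a₁ : ℚ) : E') ^ n ≠ 0 := pow_ne_zero _ (by exact_mod_cast ha10)
  have ha1C : ((a₁ : ℚ) : ℂ) ^ n ≠ 0 := pow_ne_zero _ (by exact_mod_cast ha10)
  set e' : E' := e₁ / ((a₁ : ℚ) : E') ^ n with he'
  have he'0 : e' ≠ 0 := div_ne_zero he10 ha1E
  have hval : ∀ ι : E' →+* ℂ, Λ (ι.comp (algebraMap E E')) m /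
      Λ (ι.comp (algebraMap E E')) (m + 1) =
      ι e' * (Complex.I ^ (Module.finrank ℚ K₀ / 2) * δ₁) ^ n := by
    intro ι
    have h0 := hΛ (ι.comp (algebraMap E E'))
    have h1 := valuesT gr M K d M' c hκ hh ι (Λ (ι.comp (algebraMap E E'))) (fun i => Λ' i ι) h0.1
      (fun i => (hΛ' i ι).1) h0.2.1 (fun i => (hΛ' i ι).2.1) m h0.2.2.1
      (fun i => ⟨(hΛ' i ι).2.2.1, (hnz i ι).1⟩)
    have h2 := valuesT gr M K d M' c hκ hh ι (Λ (ι.comp (algebraMap E E'))) (fun i => Λ' i ι) h0.1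
      (fun i => (hΛ' i ι).1) h0.2.1 (fun i => (hΛ' i ι).2.1) (m + 1) h0.2.2.2
      (fun i => ⟨(hΛ' i ι).2.2.2, (hnz i ι).2⟩)
    have h3 : ∀ i, Λ' i ι m ^ c i / Λ' i ι (m + 1) ^ c i =
        ι ((e i * ((a i : ℚ) : E') ^ (d i)) ^ (c i)) *
          y ^ (((Module.finrank F (K i) * d i : ℕ) : ℤ) * c i) := by
      intro i
      rw [← div_zpow, he, hfac, map_zpow₀, map_mul, map_pow, map_ratCast, ← mul_assoc, mul_zpow,
        zpow_mul, zpow_natCast]
    have h4 : Λ (ι.comp (algebraMap E E')) m / Λ (ι.comp (algebraMap E E')) (m + 1) =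
        ι e₁ * y ^ (Module.finrank F K₀ * n) := by
      rw [h1, h2, ← Finset.prod_div_distrib, he₁, map_prod, Finset.prod_congr rfl fun i _ => h3 i,
        Finset.prod_mul_distrib, zpow_sum' hy0, hdeg, zpow_natCast]
    rw [h4, hfac1, he', map_div₀, map_pow, map_ratCast, ← mul_assoc, div_mul_cancel₀ _ ha1C]
  have hY : (Complex.I ^ (Module.finrank ℚ K₀ / 2) * δ₁) ^ n ≠ 0 := by
    rw [hfac1]
    exact mul_ne_zero ha1C (pow_ne_zero _ hy0)
  set Y : ℂ := (Complex.I ^ (Module.finrank ℚ K₀ / 2) * δ₁) ^ n with hYdef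
  obtain ⟨e₀, he₀⟩ := st_DSC E E' e' (fun ι => Λ ι m / Λ ι (m + 1) / Y) (by
    intro ι
    rw [hval ι]
    field_simp)
  refine ⟨e₀, ?_, fun ι => ?_⟩
  · rintro rfl
    rw [map_zero] at he₀
    exact he'0 he₀.symm
  · have : FiniteDimensional E E' := Module.Finite.of_restrictScalars_finite ℚ E E'
    have : Algebra.IsAlgebraic E E' := Algebra.IsAlgebraic.of_finite E E'
    let _ : Algebra E ℂ := ι.toAlgebra
    let φ : E' →ₐ[E] ℂ := IsAlgClosed.lift
    have h1 : (φ : E' →+* ℂ).comp (algebraMap E E') = ι := by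
      ext x
      exact φ.commutes x
    have h2 := hval (φ : E' →+* ℂ)
    rw [h1, ← he₀] at h2
    rw [h2]
    have h3 : (φ : E' →+* ℂ) (algebraMap E E' e₀) = ι e₀ := φ.commutes e₀
    rw [h3]

theorem u2c (gr : ST_GRP) (F K₀ E E' : Type) [Field F] [NumberField F] [Field K₀]
    [NumberField K₀] [Algebra F K₀] [Field E] [NumberField E]
    [Field E'] [NumberField E'] [Algebra E E'] (n : ℕ) (w : ℤ)
    (M : MotT K₀ E n w) (m : ℤ)
    (N : ℕ) (K : Fin N → Type) [∀ i, Field (K i)]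
    [∀ i, NumberField (K i)] [∀ i, Algebra F (K i)] (d : Fin N → ℕ)
    (M' : ∀ i, MotT (K i) E' (d i) w) (c : Fin N → ℤ)
    (hκ : ∀ v k, algebraMap E E' (indT (F := F) M.κ v k) =
      ∑ i, (c i : E') * indT (F := F) (M' i).κ v k)
    (hh : ∀ (ι : E' →+* ℂ) p, (M.h (ι.comp (algebraMap E E')) p : ℤ) =
      ∑ i, c i * ((M' i).h ι p : ℤ))
    (Λ' : Fin N → (E' →+* ℂ) → ℂ → ℂ) (hΛ' : ∀ i ι, Contn ((M' i).L ι) (Λ' i ι) m)
    (hr : ∀ i, Ratio (K i) E' (d i) m (Λ' i)) : ∃ Λ : (E →+* ℂ) → ℂ → ℂ,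
      ∀ ι, Contn (M.L ι) (Λ ι) m := by
  choose δ hδ using fun i => exists_delta (K i)
  choose e he0 he using fun i => hr i (δ i) (hδ i)
  have hnz : ∀ i ι, Λ' i ι m ≠ 0 ∧ Λ' i ι (m + 1) ≠ 0 := by
    intro i ι
    have h1 := he i ι
    have h2 : ι (e i) * (Complex.I ^ (Module.finrank ℚ (K i) / 2) * δ i) ^ (d i) ≠ 0 := by
      refine mul_ne_zero ((map_ne_zero ι).2 (he0 i)) (pow_ne_zero _ (mul_ne_zero
        (pow_ne_zero _ Complex.I_ne_zero) (delta_ne_zero (hδ i))))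
    rw [← h1] at h2
    exact div_ne_zero_iff.1 h2
  have key : ∀ ι : E →+* ℂ, ∃ Λ : ℂ → ℂ, Contn (M.L ι) Λ m := by
    intro ι
    have : FiniteDimensional E E' := Module.Finite.of_restrictScalars_finite ℚ E E'
    have : Algebra.IsAlgebraic E E' := Algebra.IsAlgebraic.of_finite E E'
    let _ : Algebra E ℂ := ι.toAlgebra
    let φ : E' →ₐ[E] ℂ := IsAlgClosed.lift
    have h1 : (φ : E' →+* ℂ).comp (algebraMap E E') = ι := by
      ext x
      exact φ.commutes x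
    refine ⟨fun s => ∏ i, (Λ' i (φ : E' →+* ℂ) s) ^ (c i), ?_⟩
    have h2 := contT gr M K d M' c hκ hh (φ : E' →+* ℂ) (fun i => Λ' i (φ : E' →+* ℂ)) m
      (fun i => hΛ' i _) (fun i => (hnz i _).1) (fun i => (hnz i _).2)
    rw [h1] at h2
    exact h2
  choose Λ hΛ using key
  exact ⟨Λ, hΛ⟩

end BKA
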